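import Pool.Agent.KS6_35.EL.Tower

/-! Diophantine sets whose witnesses are bounded by iterated exponentials. -/

set_option autoImplicit false

namespace Pool.Agent.KS6_35.EL

/-- `S` is given by a polynomial equation; for `v ∈ S` with entries at most `B` there is a witness with
entries at most an iterated exponential of `B` of fixed height. -/
def BD {α : Type} (S : Set (α → ℕ)) : Prop :=
  ∃ (β : Type) (_ : Fintype β) (p : Poly (α ⊕ β)) (h : ℕ),
    (∀ v t, p (Sum.elim v t) = 0 → v ∈ S) ∧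
    ∀ v ∈ S, ∀ B, (∀ i, v i ≤ B) → ∃ t : β → ℕ, (∀ j, t j ≤ tw h B) ∧ p (Sum.elim v t) = 0

/-- functions with such a graph and bounded by an iterated exponential -/
def BF {α : Type} (f : (α → ℕ) → ℕ) : Prop :=
  BD {w : Option α → ℕ | f (w ∘ some) = w none} ∧
    ∃ F : ℕ → ℕ, TB F ∧ ∀ v B, (∀ i, v i ≤ B) → f v ≤ F B

variable {α β δ : Type}

theorem BD.ext {S S' : Set (α → ℕ)} (d : BD S) (H : ∀ v, v ∈ S ↔ v ∈ S') : BD S' := by
  rwa [← Set.ext H]

theorem BD.of_poly (p : Poly α) : BD {v : α → ℕ | p v = 0} := by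
  refine ⟨Empty, inferInstance, p.map Sum.inl, 0, fun v t h => ?_, fun v hv B _ =>
    ⟨Empty.elim, fun j => j.elim, ?_⟩⟩
  · rw [Poly.map_apply] at h; exact h
  · rw [Poly.map_apply]; exact hv

theorem BD.reindex (f : α → β) {S : Set (α → ℕ)} (d : BD S) : BD {v : β → ℕ | v ∘ f ∈ S} := by
  obtain ⟨γ, hγ, p, h, h1, h2⟩ := d
  refine ⟨γ, hγ, p.map (Sum.map f id), h, fun v t ht => ?_, fun v hv B hB => ?_⟩
  · rw [Poly.map_apply, Sum.elim_comp_map] at ht
    exact h1 _ _ ht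
  · obtain ⟨t, ht1, ht2⟩ := h2 _ hv B (fun i => hB (f i))
    refine ⟨t, ht1, ?_⟩
    rw [Poly.map_apply, Sum.elim_comp_map]
    exact ht2

theorem BD.and {P Q : (α → ℕ) → Prop} (hP : BD {v | P v}) (hQ : BD {v | Q v}) :
    BD {v | P v ∧ Q v} := by
  obtain ⟨β, hβ, p, h, h1, h2⟩ := hP
  obtain ⟨γ, hγ, q, k, k1, k2⟩ := hQ
  let p' : Poly (α ⊕ (β ⊕ γ)) := p.map (Sum.map id Sum.inl)
  let q' : Poly (α ⊕ (β ⊕ γ)) := q.map (Sum.map id Sum.inr)
  have e1 : ∀ v t, p' (Sum.elim v t) = p (Sum.elim v (t ∘ Sum.inl)) := by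
    intro v t
    rw [Poly.map_apply, Sum.elim_comp_map]; rfl
  have e2 : ∀ v t, q' (Sum.elim v t) = q (Sum.elim v (t ∘ Sum.inr)) := by
    intro v t
    rw [Poly.map_apply, Sum.elim_comp_map]; rfl
  refine ⟨β ⊕ γ, inferInstance, p' * p' + q' * q', max h k, fun v t ht => ?_, fun v hv B hB => ?_⟩
  · rw [Poly.add_apply, Poly.mul_apply, Poly.mul_apply, e1, e2] at ht
    have a1 := mul_self_nonneg (p (Sum.elim v (t ∘ Sum.inl)))
    have a2 := mul_self_nonneg (q (Sum.elim v (t ∘ Sum.inr)))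
    exact ⟨h1 _ _ (mul_self_eq_zero.1 (by linarith)), k1 _ _ (mul_self_eq_zero.1 (by linarith))⟩
  · obtain ⟨t, ht1, ht2⟩ := h2 _ hv.1 B hB
    obtain ⟨s, hs1, hs2⟩ := k2 _ hv.2 B hB
    refine ⟨Sum.elim t s, ?_, ?_⟩
    · rintro (j | j)
      · exact (ht1 j).trans (tw_mono_left (le_max_left _ _) B)
      · exact (hs1 j).trans (tw_mono_left (le_max_right _ _) B)
    · rw [Poly.add_apply, Poly.mul_apply, Poly.mul_apply, e1, e2, Sum.elim_comp_inl,
        Sum.elim_comp_inr, ht2, hs2]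
      rfl

theorem BD.or {P Q : (α → ℕ) → Prop} (hP : BD {v | P v}) (hQ : BD {v | Q v}) :
    BD {v | P v ∨ Q v} := by
  obtain ⟨β, hβ, p, h, h1, h2⟩ := hP
  obtain ⟨γ, hγ, q, k, k1, k2⟩ := hQ
  let p' : Poly (α ⊕ (β ⊕ γ)) := p.map (Sum.map id Sum.inl)
  let q' : Poly (α ⊕ (β ⊕ γ)) := q.map (Sum.map id Sum.inr)
  have e1 : ∀ v t, p' (Sum.elim v t) = p (Sum.elim v (t ∘ Sum.inl)) := by
    intro v t
    rw [Poly.map_apply, Sum.elim_comp_map]; rfl
  have e2 : ∀ v t, q' (Sum.elim v t) = q (Sum.elim v (t ∘ Sum.inr)) := by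
    intro v t
    rw [Poly.map_apply, Sum.elim_comp_map]; rfl
  refine ⟨β ⊕ γ, inferInstance, p' * q', max h k, fun v t ht => ?_, fun v hv B hB => ?_⟩
  · rw [Poly.mul_apply, e1, e2, mul_eq_zero] at ht
    exact ht.imp (h1 _ _) (k1 _ _)
  · rcases hv with hv | hv
    · obtain ⟨t, ht1, ht2⟩ := h2 _ hv B hB
      refine ⟨Sum.elim t (fun _ => 0), ?_, ?_⟩
      · rintro (j | j)
        · exact (ht1 j).trans (tw_mono_left (le_max_left _ _) B)
        · exact Nat.zero_le _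
      · rw [Poly.mul_apply, e1, Sum.elim_comp_inl, ht2, zero_mul]
    · obtain ⟨s, hs1, hs2⟩ := k2 _ hv B hB
      refine ⟨Sum.elim (fun _ => 0) s, ?_, ?_⟩
      · rintro (j | j)
        · exact Nat.zero_le _
        · exact (hs1 j).trans (tw_mono_left (le_max_right _ _) B)
      · rw [Poly.mul_apply, e2, Sum.elim_comp_inr, hs2, mul_zero]

theorem BD.true : BD {_v : α → ℕ | True} :=
  (BD.of_poly (0 : Poly α)).ext fun v => by simp

theorem BD.forall [Fintype δ] {S : δ → (α → ℕ) → Prop} (h : ∀ i, BD {v | S i v}) :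
    BD {v | ∀ i, S i v} := by
  classical
  have key : ∀ F : Finset δ, BD {v : α → ℕ | ∀ i ∈ F, S i v} := by
    intro F
    induction F using Finset.induction_on with
    | empty => exact BD.true.ext fun v => by simp
    | insert a s ha ih => exact ((h a).and ih).ext fun v => by simp
  exact (key Finset.univ).ext fun v => by simp

theorem BD.exfun [Fintype δ] {S : (δ → ℕ) → (α → ℕ) → Prop}
    (d : BD {w : α ⊕ δ → ℕ | S (w ∘ Sum.inr) (w ∘ Sum.inl)}) {F : ℕ → ℕ} (hF : TB F)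
    (hb : ∀ v B, (∀ i, v i ≤ B) → (∃ a, S a v) → ∃ a, (∀ d, a d ≤ F B) ∧ S a v) :
    BD {v : α → ℕ | ∃ a, S a v} := by
  obtain ⟨γ, hγ, p, h, h1, h2⟩ := d
  obtain ⟨k, hk⟩ := hF
  have e : ∀ (v : α → ℕ) (t : δ ⊕ γ → ℕ), (p.map (Equiv.sumAssoc α δ γ)) (Sum.elim v t) =
      p (Sum.elim (Sum.elim v (t ∘ Sum.inl)) (t ∘ Sum.inr)) := by
    intro v t
    rw [Poly.map_apply]
    congr 1
    funext x
    rcases x with (x | x) | x <;> rfl
  refine ⟨δ ⊕ γ, inferInstance, p.map (Equiv.sumAssoc α δ γ), h + k, fun v t ht => ?_,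
    fun v hv B hB => ?_⟩
  · rw [e] at ht
    have := h1 _ _ ht
    exact ⟨t ∘ Sum.inl, this⟩
  · obtain ⟨a, ha1, ha2⟩ := hb v B hB hv
    obtain ⟨t, ht1, ht2⟩ := h2 (Sum.elim v a) ha2 (tw k B) (by
      rintro (i | i)
      · exact (hB i).trans (le_tw k B)
      · exact (ha1 i).trans (hk B))
    refine ⟨Sum.elim a t, ?_, ?_⟩
    · rintro (j | j)
      · exact ((ha1 j).trans (hk B)).trans (tw_mono_left (by omega) B)
      · rw [tw_add]; exact ht1 j
    · rw [e, Sum.elim_comp_inl, Sum.elim_comp_inr]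
      exact ht2

theorem BD.ex {S : ℕ → (α → ℕ) → Prop} (d : BD {w : Option α → ℕ | S (w none) (w ∘ some)})
    {F : ℕ → ℕ} (hF : TB F)
    (hb : ∀ v B, (∀ i, v i ≤ B) → (∃ x, S x v) → ∃ x, x ≤ F B ∧ S x v) :
    BD {v : α → ℕ | ∃ x, S x v} := by
  have h1 : BD {v : α → ℕ | ∃ a : Unit → ℕ, S (a ()) v} := by
    refine BD.exfun (S := fun a v => S (a ()) v) ?_ hF ?_
    · exact (d.reindex (fun o : Option α => o.elim (Sum.inr ()) Sum.inl)).ext fun w => Iff.rfl
    · rintro v B hB ⟨a, ha⟩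
      obtain ⟨x, hx1, hx2⟩ := hb v B hB ⟨_, ha⟩
      exact ⟨fun _ => x, fun _ => hx1, hx2⟩
  exact h1.ext fun v => ⟨fun ⟨a, ha⟩ => ⟨_, ha⟩, fun ⟨x, hx⟩ => ⟨fun _ => x, hx⟩⟩

theorem BF.congr {f g : (α → ℕ) → ℕ} (hf : BF f) (h : ∀ v, f v = g v) : BF g := by
  have : f = g := funext h
  rwa [← this]

theorem BF.reindex (g : α → β) {f : (α → ℕ) → ℕ} (hf : BF f) :
    BF fun v : β → ℕ => f (v ∘ g) := by
  obtain ⟨h1, F, hF, h2⟩ := hf
  refine ⟨(h1.reindex (Option.map g)).ext fun w => Iff.rfl, F, hF, fun v B hB =>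
    h2 _ _ fun i => hB (g i)⟩

theorem BF.lift {f : (α → ℕ) → ℕ} (hf : BF f) : BF fun w : Option α → ℕ => f (w ∘ some) :=
  hf.reindex some

/-- an absolute value of a polynomial is bounded -/
theorem poly_bound (p : Poly α) : ∃ F : ℕ → ℕ, TB F ∧ ∀ v B, (∀ i, v i ≤ B) →
    (p v).natAbs ≤ F B := by
  refine Poly.induction (C := fun p => ∃ F : ℕ → ℕ, TB F ∧ ∀ v B, (∀ i, v i ≤ B) →
    (p v).natAbs ≤ F B) ?_ ?_ ?_ ?_ p
  · exact fun i => ⟨fun B => B, TB.id, fun v B hB => by simpa using hB i⟩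
  · exact fun n => ⟨fun _ => n.natAbs, TB.const _, fun v B hB => by simp⟩
  · rintro f g ⟨F, hF, hF'⟩ ⟨G, hG, hG'⟩
    refine ⟨fun B => F B + G B, hF.add hG, fun v B hB => ?_⟩
    have h1 := hF' v B hB
    have h2 := hG' v B hB
    rw [Poly.sub_apply]
    change _ ≤ F B + G B
    omega
  · rintro f g ⟨F, hF, hF'⟩ ⟨G, hG, hG'⟩
    refine ⟨fun B => F B * G B, hF.mul hG, fun v B hB => ?_⟩
    rw [Poly.mul_apply, Int.natAbs_mul]
    exact Nat.mul_le_mul (hF' v B hB) (hG' v B hB)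

theorem BF.absPoly (p : Poly α) : BF fun v => (p v).natAbs := by
  refine ⟨?_, poly_bound p⟩
  refine (BD.of_poly ((p.map some - Poly.proj none) * (p.map some + Poly.proj none))).ext fun w => ?_
  simp only [Set.mem_ofPred_eq, Poly.mul_apply, Poly.sub_apply, Poly.add_apply, Poly.map_apply,
    Poly.proj_apply, mul_eq_zero]
  constructor
  · rintro (h | h) <;> omega
  · intro h
    omega

theorem BF.of_poly {f : (α → ℕ) → ℕ} (p : Poly α) (h : ∀ v, (f v : ℤ) = p v) : BF f :=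
  (BF.absPoly p).congr fun v => by rw [← h]; simp

theorem BF.proj (i : α) : BF fun v : α → ℕ => v i := BF.of_poly (Poly.proj i) fun _ => rfl

theorem BF.const (n : ℕ) : BF fun _ : α → ℕ => n := BF.of_poly (Poly.const n) fun _ => rfl

theorem BF.nn : BF fun w : Option α → ℕ => w none := BF.proj _

theorem BD.subst [Fintype δ] {S : Set (δ → ℕ)} (hS : BD S) {g : δ → (α → ℕ) → ℕ}
    (hg : ∀ d, BF (g d)) : BD {v : α → ℕ | (fun d => g d v) ∈ S} := by
  choose h1 F hF h2 using hg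
  have h3 : BD {v : α → ℕ | ∃ a : δ → ℕ, (∀ d, g d v = a d) ∧ a ∈ S} := by
    refine BD.exfun (S := fun a v => (∀ d, g d v = a d) ∧ a ∈ S) ?_
      (F := fun B => ∑ d, F d B) (TB.sum _ hF) ?_
    · refine BD.and (BD.forall fun d => ?_) (hS.reindex Sum.inr)
      exact ((h1 d).reindex (fun o : Option α => o.elim (Sum.inr d) Sum.inl)).ext fun w => Iff.rfl
    · rintro v B hB ⟨a, ha1, ha2⟩
      refine ⟨a, fun d => ?_, ha1, ha2⟩
      rw [← ha1]
      exact (h2 d v B hB).trans (Finset.single_le_sum (f := fun d => F d B)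
        (fun _ _ => Nat.zero_le _) (Finset.mem_univ d))
  refine h3.ext fun v => ⟨?_, fun h => ⟨_, fun _ => rfl, h⟩⟩
  rintro ⟨a, ha1, ha2⟩
  rw [Set.mem_ofPred_eq, funext ha1]
  exact ha2

theorem BF.subst [Fintype δ] {f : (δ → ℕ) → ℕ} (hf : BF f) {g : δ → (α → ℕ) → ℕ}
    (hg : ∀ d, BF (g d)) : BF fun v : α → ℕ => f (fun d => g d v) := by
  obtain ⟨h1, F, hF, h2⟩ := hf
  refine ⟨?_, ?_⟩
  · refine (BD.subst (δ := Option δ) h1 (g := fun o w => o.elim (w Option.none)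
      (fun d => g d (w ∘ some))) ?_).ext fun w => Iff.rfl
    rintro (_ | d)
    · exact BF.nn
    · exact (hg d).lift
  · choose k1 G hG k2 using hg
    refine ⟨fun B => F (∑ d, G d B), hF.comp (TB.sum _ hG), fun v B hB => h2 _ _ fun d => ?_⟩
    exact (k2 d v B hB).trans (Finset.single_le_sum (f := fun d => G d B)
      (fun _ _ => Nat.zero_le _) (Finset.mem_univ d))

theorem BD.subst2 {R : ℕ → ℕ → Prop} (hR : BD {v : Fin 2 → ℕ | R (v 0) (v 1)})
    {f g : (α → ℕ) → ℕ} (hf : BF f) (hg : BF g) : BD {v : α → ℕ | R (f v) (g v)} := by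
  refine (BD.subst hR (g := ![f, g]) ?_).ext fun v => Iff.rfl
  intro d
  fin_cases d
  · exact hf
  · exact hg

theorem BF.subst2 {R : ℕ → ℕ → ℕ} (hR : BF fun v : Fin 2 → ℕ => R (v 0) (v 1))
    {f g : (α → ℕ) → ℕ} (hf : BF f) (hg : BF g) : BF fun v : α → ℕ => R (f v) (g v) := by
  refine (BF.subst hR (g := ![f, g]) ?_).congr fun v => rfl
  intro d
  fin_cases d
  · exact hf
  · exact hg

variable {f g h : (α → ℕ) → ℕ}

theorem BF.add (hf : BF f) (hg : BF g) : BF fun v => f v + g v :=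
  BF.subst2 (R := fun x y => x + y) (BF.of_poly (Poly.proj 0 + Poly.proj 1) fun v => by simp) hf hg

theorem BF.mul (hf : BF f) (hg : BF g) : BF fun v => f v * g v :=
  BF.subst2 (R := fun x y => x * y) (BF.of_poly (Poly.proj 0 * Poly.proj 1) fun v => by simp) hf hg

theorem BD.eq (hf : BF f) (hg : BF g) : BD {v | f v = g v} :=
  BD.subst2 (R := fun x y => x = y) ((BD.of_poly (Poly.proj 0 - Poly.proj 1)).ext fun v => by
    simp only [Set.mem_ofPred_eq, Poly.sub_apply, Poly.proj_apply]; omega) hf hg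

theorem BD.le (hf : BF f) (hg : BF g) : BD {v | f v ≤ g v} := by
  refine BD.subst2 (R := fun x y => x ≤ y) ?_ hf hg
  have h1 : BD {v : Fin 2 → ℕ | ∃ d, v 0 + d = v 1} := by
    refine BD.ex (S := fun d v => v 0 + d = v 1) ?_ TB.id ?_
    · exact BD.eq ((BF.proj (some 0)).add BF.nn) (BF.proj (some 1))
    · rintro v B hB ⟨x, hx⟩
      have := hB 1
      exact ⟨x, by omega, hx⟩
  exact h1.ext fun v => ⟨fun ⟨d, hd⟩ => by
    simp only [Set.mem_ofPred_eq]; omega, fun h => ⟨v 1 - v 0, by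
    simp only [Set.mem_ofPred_eq] at h; omega⟩⟩

theorem BD.lt (hf : BF f) (hg : BF g) : BD {v | f v < g v} :=
  (BD.le (hf.add (BF.const 1)) hg).ext fun _ => Iff.rfl

theorem BD.dvd (hf : BF f) (hg : BF g) : BD {v | f v ∣ g v} := by
  refine BD.subst2 (R := fun x y => x ∣ y) ?_ hf hg
  have h1 : BD {v : Fin 2 → ℕ | ∃ q, v 0 * q = v 1} := by
    refine BD.ex (S := fun q v => v 0 * q = v 1) ?_ TB.id ?_
    · exact BD.eq ((BF.proj (some 0)).mul BF.nn) (BF.proj (some 1))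
    · rintro v B hB ⟨x, hx⟩
      refine ⟨v 1 / v 0, (Nat.div_le_self _ _).trans (hB 1), ?_⟩
      exact Nat.mul_div_cancel' ⟨x, hx.symm⟩
  exact h1.ext fun v => ⟨fun ⟨d, hd⟩ => ⟨d, hd.symm⟩, fun ⟨d, hd⟩ => ⟨d, hd.symm⟩⟩

theorem BF.sub (hf : BF f) (hg : BF g) : BF fun v => f v - g v := by
  refine BF.subst2 (R := fun x y => x - y) ⟨?_, fun B => B, TB.id, fun v B hB =>
    (Nat.sub_le _ _).trans (hB 0)⟩ hf hg
  have h0 : BF fun w : Option (Fin 2) → ℕ => w (some 0) := BF.proj _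
  have h1 : BF fun w : Option (Fin 2) → ℕ => w (some 1) := BF.proj _
  refine (((BD.le h0 h1).and (BD.eq BF.nn (BF.const 0))).or (BD.eq h0 (h1.add BF.nn))).ext
    fun w => ?_
  simp only [Set.mem_ofPred_eq, Function.comp]
  omega

theorem BF.div (hf : BF f) (hg : BF g) : BF fun v => f v / g v := by
  refine BF.subst2 (R := fun x y => x / y) ⟨?_, fun B => B, TB.id, fun v B hB =>
    (Nat.div_le_self _ _).trans (hB 0)⟩ hf hg
  have h0 : BF fun w : Option (Fin 2) → ℕ => w (some 0) := BF.proj _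
  have h1 : BF fun w : Option (Fin 2) → ℕ => w (some 1) := BF.proj _
  refine (((BD.eq h1 (BF.const 0)).and (BD.eq BF.nn (BF.const 0))).or
    ((BD.le (BF.nn.mul h1) h0).and (BD.lt h0 ((BF.nn.add (BF.const 1)).mul h1)))).ext
    fun w => ?_
  simp only [Set.mem_ofPred_eq, Function.comp]
  generalize w (some 0) = x
  generalize w (some 1) = y
  generalize w Option.none = z
  rcases Nat.eq_zero_or_pos y with rfl | hy
  · simp
    omega
  · constructor
    · rintro (⟨h, -⟩ | ⟨h1, h2⟩)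
      · omega
      · exact (Nat.div_eq_iff hy).2 ⟨h1, by
          have : (z + 1) * y = z * y + y := by ring
          omega⟩
    · intro h
      have := (Nat.div_eq_iff hy).1 h
      have e : (z + 1) * y = z * y + y := by ring
      exact Or.inr ⟨this.1, by omega⟩

theorem BF.mod (hf : BF f) (hg : BF g) : BF fun v => f v % g v :=
  (hf.sub (hg.mul (hf.div hg))).congr fun v => (Nat.mod_eq_sub (f v) (g v)).symm

theorem BD.modEq (hf : BF f) (hg : BF g) (hh : BF h) : BD {v | f v ≡ g v [MOD h v]} :=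
  BD.eq (hf.mod hh) (hg.mod hh)

end Pool.Agent.KS6_35.EL
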