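import Pool.Agent.KS6_35.EL.Pow
import Pool.Graph.R_seed8.Helper844.DioBall

/-! Bounded universal quantifiers with bounded witnesses (the number theory is in the library module
`Helper844.DioBall`). -/

set_option autoImplicit false

namespace Pool.Agent.KS6_35.EL

open Pool.Agent.Helper844.Dio

variable {α δ : Type} {f g h : (α → ℕ) → ℕ}

theorem BF.choose (hf : BF f) (hg : BF g) : BF fun v => Nat.choose (f v) (g v) := by
  have d1 : BF fun v => 2 ^ (f v) + 1 := ((BF.const 2).pow hf).add (BF.const 1)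
  exact (((((d1.add (BF.const 1)).pow hf).div (d1.pow hg)).mod d1)).congr fun v =>
    choose_formula _ _

theorem BF.factorial (hf : BF f) : BF fun v => Nat.factorial (f v) := by
  have d1 : BF fun v => 2 * (f v + 1) ^ (f v + 2) + 1 :=
    ((BF.const 2).mul ((hf.add (BF.const 1)).pow (hf.add (BF.const 2)))).add (BF.const 1)
  exact ((d1.pow hf).div (d1.choose hf)).congr fun v => factorial_formula _

theorem BF.mprod (hf : BF f) (hg : BF g) (hpos : ∀ v, 1 ≤ f v) :
    BF fun v => Pool.Agent.Helper844.Dio.mprod (f v) (g v) := by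
  have dP : BF fun v => (1 + f v * g v) ^ g v := ((BF.const 1).add (hf.mul hg)).pow hg
  have dM : BF fun v => f v * (1 + f v * g v) ^ g v + 1 := (hf.mul dP).add (BF.const 1)
  exact (((hf.pow hg).mul (hg.factorial.mul (((dM.sub dP).add hg).choose hg))).mod dM).congr
    fun w => prod_formula _ _ (hpos w)

theorem BF.descFactorial (hf : BF f) (hg : BF g) :
    BF fun v => Nat.descFactorial (f v) (g v) :=
  (hg.factorial.mul (hf.choose hg)).congr fun v =>
    (Nat.descFactorial_eq_factorial_mul_choose _ _).symm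

/-- only bounded arguments matter for the existence of witnesses -/
theorem BD.ext' {S S' : Set (α → ℕ)} (d : BD S) (H1 : ∀ v ∈ S, v ∈ S')
    (H2 : ∀ v B, (∀ i, v i ≤ B) → v ∈ S' → v ∈ S) : BD S' := by
  obtain ⟨β, hβ, p, h, h1, h2⟩ := d
  exact ⟨β, hβ, p, h, fun v t ht => H1 _ (h1 v t ht), fun v hv B hB => h2 v (H2 v B hB hv) B hB⟩

theorem BD.comp1 {S : ℕ → (α → ℕ) → Prop} (d : BD {w : Option α → ℕ | S (w none) (w ∘ some)})
    (hf : BF f) : BD {v : α → ℕ | S (f v) v} := by
  obtain ⟨h1, F, hF, h2⟩ := hf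
  have h3 : BD {v : α → ℕ | ∃ x, f v = x ∧ S x v} := by
    refine BD.ex (S := fun x v => f v = x ∧ S x v) (h1.and d) hF ?_
    rintro v B hB ⟨x, hx, hx'⟩
    exact ⟨x, by rw [← hx]; exact h2 v B hB, hx, hx'⟩
  exact h3.ext fun v => ⟨fun ⟨x, hx, hx'⟩ => by rw [← hx] at hx'; exact hx', fun h => ⟨_, rfl, h⟩⟩

theorem BF.comp1 {S : ℕ → (α → ℕ) → ℕ} (d : BF fun w : Option α → ℕ => S (w none) (w ∘ some))
    (hf : BF f) : BF fun v : α → ℕ => S (f v) v := by
  obtain ⟨d1, F, hF, d2⟩ := d
  obtain ⟨h1, G, hG, h2⟩ := id hf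
  refine ⟨?_, fun B => F (B + G B), hF.comp (TB.id.add hG), fun v B hB =>
    d2 (Option.elim' (f v) v) _ ?_⟩
  · refine (BD.comp1 (α := Option α) (f := fun w => f (w ∘ some))
      (S := fun x w => S x (w ∘ some) = w none) ?_ hf.lift).ext fun w => Iff.rfl
    exact (d1.reindex (fun o : Option (Option α) => o.elim (some none)
      (fun o' => o'.elim none (fun i => some (some i))))).ext fun w => Iff.rfl
  · rintro (_ | i)
    · exact (h2 v B hB).trans (Nat.le_add_left _ _)
    · exact (hB i).trans (Nat.le_add_right _ _)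

theorem mprod_dvd_and_crt (T Y : ℕ) (hcop : ∀ k < Y, ∀ l < Y, k ≠ l →
    Nat.Coprime (1 + (k + 1) * T) (1 + (l + 1) * T)) :
    (∀ b : ℕ → ℕ, ∃ x, x < mprod T Y ∧ ∀ k < Y, x ≡ b k [MOD (1 + (k + 1) * T)]) ∧
    ∀ n : ℕ, (∀ k < Y, (1 + (k + 1) * T) ∣ n) → mprod T Y ∣ n := by
  have hpair : (↑(Finset.range Y) : Set ℕ).Pairwise
      (Function.onFun Nat.Coprime (fun k => 1 + (k + 1) * T)) := by
    intro k hk l hl hne
    exact hcop k (by simpa using hk) l (by simpa using hl) hne
  have hne0 : ∀ i ∈ Finset.range Y, (fun k => 1 + (k + 1) * T) i ≠ 0 := by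
    intro i _; simp
  constructor
  · intro b
    refine ⟨_, Nat.chineseRemainderOfFinset_lt_prod b (fun k => 1 + (k + 1) * T) hne0 hpair,
      fun k hk => (Nat.chineseRemainderOfFinset b (fun k => 1 + (k + 1) * T) (Finset.range Y)
        hne0 hpair).2 k (Finset.mem_range.2 hk)⟩
  · intro n hn
    unfold mprod
    apply Finset.prod_dvd_of_isRelPrime
    · intro k hk l hl hne
      exact Nat.coprime_iff_isRelPrime.1 (hpair hk hl hne)
    · intro k hk
      exact hn k (Finset.mem_range.1 hk)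

theorem coprime_moduli {Q Y : ℕ} (hQ : Y ≤ Q) : ∀ k < Y, ∀ l < Y, k ≠ l →
    Nat.Coprime (1 + (k + 1) * Q.factorial) (1 + (l + 1) * Q.factorial) := by
  have aux : ∀ k < Y, ∀ l < Y, k < l →
      Nat.Coprime (1 + (k + 1) * Q.factorial) (1 + (l + 1) * Q.factorial) := by
    intro k hk l hl hkl
    apply Nat.coprime_of_dvd
    intro q hq h1 h2
    have h3 : q ∣ (l - k) * Q.factorial := by
      have : (l - k) * Q.factorial = (1 + (l + 1) * Q.factorial) - (1 + (k + 1) * Q.factorial) := by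
        obtain ⟨s, rfl⟩ : ∃ s, l = k + s := ⟨l - k, by omega⟩
        have h4 : (k + s + 1) * Q.factorial = (k + 1) * Q.factorial + s * Q.factorial := by ring
        have h5 : k + s - k = s := by omega
        rw [h4, h5]
        omega
      rw [this]
      exact Nat.dvd_sub h2 h1
    have hqT : q ∣ Q.factorial → False := by
      intro h
      have : q ∣ 1 := (Nat.dvd_add_left (Dvd.dvd.mul_left h _)).1 h1
      exact hq.one_lt.ne' (Nat.dvd_one.1 this)
    rcases (Nat.Prime.dvd_mul hq).1 h3 with h | h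
    · have : q ≤ l - k := Nat.le_of_dvd (by omega) h
      exact hqT ((Nat.dvd_factorial hq.pos (by omega)))
    · exact hqT h
  intro k hk l hl hne
  rcases lt_or_gt_of_ne hne with h | h
  · exact aux k hk l hl h
  · exact (aux l hl k hk h).symm

/-- one direction of the elimination of a bounded quantifier, with bounds -/
theorem bq_forward (p : Poly (Option α ⊕ δ)) (Q : ℕ) (v : α → ℕ) (Y u : ℕ) (hQ : Y ≤ Q)
    (H : ∀ k < Y, ∃ t : δ → ℕ, (∀ i, t i ≤ u) ∧ p (Sum.elim (Option.elim' k v) t) = 0) :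
    ∃ c : ℕ, ∃ a : δ → ℕ, c < mprod Q.factorial Y ∧ (∀ i, a i < mprod Q.factorial Y) ∧
      mprod Q.factorial Y ∣ 1 + (c + 1) * Q.factorial ∧
      (∀ i, mprod Q.factorial Y ∣ (a i).descFactorial (u + 1)) ∧
      mprod Q.factorial Y ∣ (p (Sum.elim (Option.elim' c v) a)).natAbs := by
  classical
  choose! t htu ht using H
  obtain ⟨crt, hdiv⟩ := mprod_dvd_and_crt Q.factorial Y (coprime_moduli hQ)
  obtain ⟨c, hcM, hc⟩ := crt (fun k => k)
  choose a haM ha using fun i => crt (fun k => t k i)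
  refine ⟨c, a, hcM, haM, ?_, ?_, ?_⟩
  · apply hdiv
    intro k hk
    have h1 : 1 + (c + 1) * Q.factorial ≡ 1 + (k + 1) * Q.factorial
        [MOD (1 + (k + 1) * Q.factorial)] :=
      Nat.ModEq.add_left _ (Nat.ModEq.mul_right _ (Nat.ModEq.add_right _ (hc k hk)))
    exact (Nat.modEq_zero_iff_dvd.1 (h1.trans (Nat.modEq_zero_iff_dvd.2 dvd_rfl)))
  · intro i
    apply hdiv
    intro k hk
    have h1 := ha i k hk
    have h2 := htu k hk i
    rw [Nat.descFactorial_eq_prod_range]
    rcases le_or_gt (t k i) (a i) with hle | hgt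
    · have : (1 + (k + 1) * Q.factorial) ∣ (a i - t k i) := (Nat.modEq_iff_dvd' hle).1 h1.symm
      exact this.trans (Finset.dvd_prod_of_mem (fun j => a i - j)
        (Finset.mem_range.2 (by omega)))
    · have : ∏ j ∈ Finset.range (u + 1), (a i - j) = 0 := by
        apply Finset.prod_eq_zero (i := a i) (Finset.mem_range.2 (by omega))
        simp
      rw [this]; exact dvd_zero _
  · apply hdiv
    intro k hk
    have h1 : p (Sum.elim (Option.elim' c v) a) ≡ p (Sum.elim (Option.elim' k v) (t k))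
        [ZMOD ((1 + (k + 1) * Q.factorial : ℕ) : ℤ)] := by
      apply poly_modEq
      rintro (i | i)
      · rcases i with _ | i
        · simp only [Sum.elim_inl, Option.elim'_none]
          exact (Int.natCast_modEq_iff).2 (hc k hk)
        · simp only [Sum.elim_inl, Option.elim'_some]
          exact Int.ModEq.refl _
      · simp only [Sum.elim_inr]
        exact (Int.natCast_modEq_iff).2 (ha i k hk)
    rw [ht k hk] at h1
    exact Int.natCast_dvd.1 (Int.modEq_zero_iff_dvd.1 h1)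

theorem mprod_le (T Y : ℕ) : mprod T Y ≤ (1 + Y * T) ^ Y := by
  unfold mprod
  calc ∏ k ∈ Finset.range Y, (1 + (k + 1) * T) ≤ ∏ k ∈ Finset.range Y, (1 + Y * T) := by
        apply Finset.prod_le_prod'
        intro k hk
        have := Finset.mem_range.1 hk
        have : (k + 1) * T ≤ Y * T := Nat.mul_le_mul_right T (by omega)
        omega
    _ = _ := by simp

theorem BD.ball1 {S : ℕ → (α → ℕ) → Prop} (d : BD {w : Option α → ℕ | S (w none) (w ∘ some)}) :
    BD {w : Option α → ℕ | ∀ k < w none, S k (w ∘ some)} := by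
  obtain ⟨δ, _, p, e, hp1, hp2⟩ := d
  obtain ⟨g, ⟨q, hq⟩, gmono, gb⟩ := majorant p
  let Qf : ℕ → (Option α → ℕ) → ℕ := fun u w =>
    g (Sum.elim (Option.elim' (w none) (w ∘ some)) (fun _ => u)) + w none + u + 1
  let C : ((Fin 2 ⊕ δ) → ℕ) → (Option α → ℕ) → Prop := fun a w =>
    mprod (Qf (a (Sum.inl 0)) w).factorial (w none) ∣
      1 + (a (Sum.inl 1) + 1) * (Qf (a (Sum.inl 0)) w).factorial ∧
    (∀ i, mprod (Qf (a (Sum.inl 0)) w).factorial (w none) ∣
      (a (Sum.inr i)).descFactorial (a (Sum.inl 0) + 1)) ∧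
    mprod (Qf (a (Sum.inl 0)) w).factorial (w none) ∣
      (p (Sum.elim (Option.elim' (a (Sum.inl 1)) (w ∘ some)) (a ∘ Sum.inr))).natAbs
  have hC1 : ∀ a w, C a w → ∀ k < w none, S k (w ∘ some) := by
    intro a w hc k hk
    obtain ⟨t, ht⟩ := (bq_core p g gmono gb (w ∘ some) (w none)).2
      ⟨a (Sum.inl 0), a (Sum.inl 1), a ∘ Sum.inr, hc⟩ k hk
    exact hp1 _ _ ht
  obtain ⟨G, hG, hG'⟩ := poly_bound q
  let Qb : ℕ → ℕ := fun B => G (tw e B) + B + tw e B + 1
  let Mb : ℕ → ℕ := fun B => (1 + B * (Qb B).factorial) ^ B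
  have hQb : TB Qb := (((hG.comp (TB.tw e)).add TB.id).add (TB.tw e)).add (TB.const 1)
  have hMb : TB Mb := ((TB.const 1).add (TB.id.mul hQb.factorial)).pow TB.id
  have hC2 : ∀ w : Option α → ℕ, ∀ B, (∀ i, w i ≤ B) → (∀ k < w none, S k (w ∘ some)) →
      ∃ a : (Fin 2 ⊕ δ) → ℕ, (∀ i, a i ≤ tw e B + Mb B) ∧ C a w := by
    intro w B hB hS
    obtain ⟨c, a, hc, ha, h1, h2, h3⟩ := bq_forward p (Qf (tw e B) w) (w ∘ some) (w none) (tw e B)
      (by change _ ≤ _ + w none + _ + _; omega)
      (fun k hk => by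
        obtain ⟨t, ht1, ht2⟩ := hp2 (Option.elim' k (w ∘ some)) (hS k hk) B (by
          rintro (_ | i)
          · exact hk.le.trans (hB none)
          · exact hB (some i))
        exact ⟨t, ht1, ht2⟩)
    have hQle : Qf (tw e B) w ≤ Qb B := by
      have h4 : g (Sum.elim (Option.elim' (w none) (w ∘ some)) (fun _ => tw e B)) ≤ G (tw e B) := by
        have h5 := hG' (Sum.elim (Option.elim' (w none) (w ∘ some)) (fun _ : δ => tw e B)) (tw e B)
          (by
            rintro ((_ | i) | i)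
            · exact (hB none).trans (le_tw e B)
            · exact (hB (some i)).trans (le_tw e B)
            · exact le_rfl)
        rw [← hq, Int.natAbs_natCast] at h5
        exact h5
      have h5 := hB none
      change _ + _ + _ + _ ≤ _ + _ + _ + _
      omega
    have hM : mprod (Qf (tw e B) w).factorial (w none) ≤ Mb B := by
      refine (mprod_le _ _).trans ?_
      have h4 : w none * (Qf (tw e B) w).factorial ≤ B * (Qb B).factorial :=
        Nat.mul_le_mul (hB none) (Nat.factorial_le hQle)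
      exact (Nat.pow_le_pow_left (by omega) _).trans
        (Nat.pow_le_pow_right (by omega) (hB none))
    refine ⟨Sum.elim ![tw e B, c] a, ?_, h1, h2, h3⟩
    rintro (i | i)
    · fin_cases i
      · exact Nat.le_add_right _ _
      · exact (hc.le.trans hM).trans (Nat.le_add_left _ _)
    · exact ((ha i).le.trans hM).trans (Nat.le_add_left _ _)
  have hC : BD {w : Option α → ℕ | ∃ a, C a w} := by
    refine BD.exfun (S := C) ?_ ((TB.tw e).add hMb) ?_
    swap
    · rintro w B hB ⟨a, ha⟩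
      exact hC2 w B hB (hC1 a w ha)
    have dY : BF (fun x : Option α ⊕ (Fin 2 ⊕ δ) → ℕ => x (Sum.inl none)) := BF.proj _
    have du : BF (fun x : Option α ⊕ (Fin 2 ⊕ δ) → ℕ => x (Sum.inr (Sum.inl 0))) := BF.proj _
    have dc : BF (fun x : Option α ⊕ (Fin 2 ⊕ δ) → ℕ => x (Sum.inr (Sum.inl 1))) := BF.proj _
    have dg : BF (fun x : Option α ⊕ (Fin 2 ⊕ δ) → ℕ =>
        g (Sum.elim (Option.elim' (x (Sum.inl none)) (x ∘ Sum.inl ∘ some))
          (fun _ => x (Sum.inr (Sum.inl 0))))) := by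
      refine (BF.absPoly (q.map (Sum.elim (Option.elim' (Sum.inl none)
        (fun a => Sum.inl (some a))) (fun _ => Sum.inr (Sum.inl 0))))).congr fun x => ?_
      rw [Poly.map_apply, ← hq, Int.natAbs_natCast]
      congr 1
      ext i
      rcases i with (_ | i) | i <;> rfl
    have dp : BF (fun x : Option α ⊕ (Fin 2 ⊕ δ) → ℕ =>
        (p (Sum.elim (Option.elim' (x (Sum.inr (Sum.inl 1))) (x ∘ Sum.inl ∘ some))
          (x ∘ Sum.inr ∘ Sum.inr))).natAbs) := by
      refine (BF.absPoly (p.map (Sum.elim (Option.elim' (Sum.inr (Sum.inl 1))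
        (fun a => Sum.inl (some a))) (Sum.inr ∘ Sum.inr)))).congr fun x => ?_
      rw [Poly.map_apply]
      congr 2
      ext i
      rcases i with (_ | i) | i <;> rfl
    have dQ := ((dg.add dY).add du).add (BF.const 1)
    have dT := dQ.factorial
    have dM := dT.mprod dY (fun _ => Nat.factorial_pos _)
    have d1 := BD.dvd dM ((BF.const 1).add ((dc.add (BF.const 1)).mul dT))
    have d2 : BD {x : Option α ⊕ (Fin 2 ⊕ δ) → ℕ | ∀ i : δ, mprod (g (Sum.elim (Option.elim'
        (x (Sum.inl none)) (x ∘ Sum.inl ∘ some)) (fun _ => x (Sum.inr (Sum.inl 0)))) +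
        x (Sum.inl none) + x (Sum.inr (Sum.inl 0)) + 1).factorial (x (Sum.inl none)) ∣
        (x (Sum.inr (Sum.inr i))).descFactorial (x (Sum.inr (Sum.inl 0)) + 1)} :=
      BD.forall fun i => BD.dvd dM ((BF.proj (Sum.inr (Sum.inr i))).descFactorial
        (du.add (BF.const 1)))
    exact (d1.and (d2.and (BD.dvd dM dp))).ext fun x => Iff.rfl
  exact hC.ext' (fun w ⟨a, ha⟩ => hC1 a w ha) fun w B hB hw => by
    obtain ⟨a, -, ha⟩ := hC2 w B hB hw
    exact ⟨a, ha⟩

theorem BD.ball {S : ℕ → (α → ℕ) → Prop} (hf : BF f)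
    (d : BD {w : Option α → ℕ | S (w none) (w ∘ some)}) : BD {v : α → ℕ | ∀ k < f v, S k v} :=
  BD.comp1 (S := fun x v => ∀ k < x, S k v) (BD.ball1 d) hf

end Pool.Agent.KS6_35.EL
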