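import Pool.Agent.KS6_35.EL.ElemBF

/-! Substitution in words as a function of codes. -/

set_option autoImplicit false

namespace Pool.Agent.KS6_35.EL

open Pool.Agent.KS6_35.OR.Eqs

variable {α : Type} {f g a b : (α → ℕ) → ℕ}

theorem BF.iteEq (hf : BF f) (hg : BF g) (ha : BF a) (hb : BF b) :
    BF fun v => if f v = g v then a v else b v := by
  obtain ⟨F, hF, hF'⟩ := ha.2
  obtain ⟨G, hG, hG'⟩ := hb.2
  refine ⟨?_, fun B => F B + G B, hF.add hG, fun v B hB => ?_⟩
  · refine (((BD.eq hf.lift hg.lift).and (BD.eq ha.lift BF.nn)).or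
      (((BD.lt hf.lift hg.lift).or (BD.lt hg.lift hf.lift)).and (BD.eq hb.lift BF.nn))).ext
      fun w => ?_
    simp only [Set.mem_ofPred_eq]
    split_ifs with h
    · constructor
      · rintro (h1 | h1) <;> omega
      · intro h1
        exact Or.inl ⟨h, h1⟩
    · constructor
      · rintro (h1 | h1) <;> omega
      · intro h1
        exact Or.inr ⟨by omega, h1⟩
  · have h1 := hF' v B hB
    have h2 := hG' v B hB
    change ite _ _ _ ≤ F B + G B
    split_ifs <;> omega

theorem BF.pair (hf : BF f) (hg : BF g) : BF fun v => Nat.pair (f v) (g v) := by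
  refine BF.subst2 (R := Nat.pair) ⟨?_, fun B => (B + 1) ^ 2,
    (TB.id.add (TB.const 1)).pow (TB.const 2), fun v B hB => ?_⟩ hf hg
  · have h0 : BF fun w : Option (Fin 2) → ℕ => w (some 0) := BF.proj _
    have h1 : BF fun w : Option (Fin 2) → ℕ => w (some 1) := BF.proj _
    refine (((BD.lt h0 h1).and (BD.eq ((h1.mul h1).add h0) BF.nn)).or
      ((BD.le h1 h0).and (BD.eq (((h0.mul h0).add h0).add h1) BF.nn))).ext fun w => ?_
    simp only [Set.mem_ofPred_eq, Nat.pair, Function.comp]
    split_ifs with h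
    · constructor
      · rintro (h1 | h1)
        · exact h1.2
        · omega
      · intro h1
        exact Or.inl ⟨h, h1⟩
    · constructor
      · rintro (h1 | h1)
        · omega
        · exact h1.2
      · intro h1
        exact Or.inr ⟨by omega, h1⟩
  · have h1 := Nat.pair_lt_max_add_one_sq (v 0) (v 1)
    refine h1.le.trans (Nat.pow_le_pow_left ?_ 2)
    exact Nat.add_le_add_right (max_le (hB 0) (hB 1)) 1

theorem BF.unpair1 (hf : BF f) : BF fun v => (f v).unpair.1 := by
  obtain ⟨F, hF, hF'⟩ := hf.2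
  refine ⟨?_, F, hF, fun v B hB => (Nat.unpair_left_le _).trans (hF' v B hB)⟩
  have h1 : BD {w : Option α → ℕ | ∃ y, Nat.pair (w none) y = f (w ∘ some)} := by
    refine BD.ex (S := fun y w => Nat.pair (w none) y = f (w ∘ some)) ?_ hF ?_
    · exact BD.eq ((BF.proj (some none)).pair BF.nn) hf.lift.lift
    · rintro w B hB ⟨y, hy⟩
      exact ⟨y, ((Nat.right_le_pair _ _).trans hy.le).trans (hF' _ B fun i => hB _), hy⟩
  refine h1.ext fun w => ?_
  simp only [Set.mem_ofPred_eq]
  constructor
  · rintro ⟨y, hy⟩; rw [← hy]; simp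
  · intro h; exact ⟨(f (w ∘ some)).unpair.2, by rw [← h]; simp⟩

theorem BF.unpair2 (hf : BF f) : BF fun v => (f v).unpair.2 := by
  obtain ⟨F, hF, hF'⟩ := hf.2
  refine ⟨?_, F, hF, fun v B hB => (Nat.unpair_right_le _).trans (hF' v B hB)⟩
  have h1 : BD {w : Option α → ℕ | ∃ y, Nat.pair y (w none) = f (w ∘ some)} := by
    refine BD.ex (S := fun y w => Nat.pair y (w none) = f (w ∘ some)) ?_ hF ?_
    · exact BD.eq (BF.nn.pair (BF.proj (some none))) hf.lift.lift
    · rintro w B hB ⟨y, hy⟩
      exact ⟨y, ((Nat.left_le_pair _ _).trans hy.le).trans (hF' _ B fun i => hB _), hy⟩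
  refine h1.ext fun w => ?_
  simp only [Set.mem_ofPred_eq]
  constructor
  · rintro ⟨y, hy⟩; rw [← hy]; simp
  · intro h; exact ⟨(f (w ∘ some)).unpair.1, by rw [← h]; simp⟩

/-- push `j` copies of `l` -/
def push (l acc : ℕ) : ℕ → ℕ
  | 0 => acc
  | j + 1 => Nat.succ (Nat.pair l (push l acc j))

theorem cons_bound {L l x : ℕ} (h : l ≤ L) :
    Nat.succ (Nat.pair l x) + L + 2 ≤ (x + L + 2) ^ 2 := by
  have h1 := Nat.pair_lt_max_add_one_sq l x
  have h2 : (max l x + 1) ^ 2 ≤ (x + L + 1) ^ 2 :=
    Nat.pow_le_pow_left (by have := max_le (a := l) (b := x) (c := x + L) (by omega) (by omega)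
                            omega) 2
  have h3 : (x + L + 2) ^ 2 = (x + L + 1) ^ 2 + 2 * (x + L + 1) + 1 := by ring
  omega

theorem push_bound {L l acc : ℕ} (h : l ≤ L) (j : ℕ) :
    push l acc j + L + 2 ≤ (acc + L + 2) ^ 2 ^ j := by
  induction j with
  | zero => rw [pow_zero, pow_one]; exact le_rfl
  | succ j ih =>
    refine (cons_bound h).trans ?_
    rw [pow_succ 2 j, pow_mul]
    exact Nat.pow_le_pow_left ih 2

theorem BF.push {l acc j : (α → ℕ) → ℕ} (hl : BF l) (ha : BF acc) (hj : BF j) :
    BF fun v => push (l v) (acc v) (j v) := by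
  have h1 : BF fun w : Option (Fin 2) → ℕ =>
      (fun (j : ℕ) (v : Fin 2 → ℕ) => EL.push (v 0) (v 1) j) (w none) (fun i => w (some i)) := by
    refine BF.prec (φ := fun (j : ℕ) (v : Fin 2 → ℕ) => EL.push (v 0) (v 1) j)
      (g := fun v => v 1) (h := fun _ x v => Nat.succ (Nat.pair (v 0) x)) (BF.proj 1) ?_
      (fun _ => rfl) (fun _ _ => rfl) (F := fun B => (B + B + 2) ^ 2 ^ B)
      (((TB.id.add TB.id).add (TB.const 2)).pow TB.id.two_pow) ?_
    · exact ((BF.proj (some (some 0))).pair BF.nn).add (BF.const 1)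
    · intro z v B hz hv
      have h2 := push_bound (L := v 0) (l := v 0) (acc := v 1) le_rfl z
      have h3 : (v 1 + v 0 + 2) ^ 2 ^ z ≤ (B + B + 2) ^ 2 ^ B :=
        (Nat.pow_le_pow_left (by have := hv 0; have := hv 1; omega) _).trans
          (Nat.pow_le_pow_right (by omega) (Nat.pow_le_pow_right (by norm_num) hz))
      change EL.push (v 0) (v 1) z ≤ _
      omega
  refine (BF.subst (δ := Option (Fin 2)) h1
    (g := fun o v => o.elim (j v) (fun i => if i = 0 then l v else acc v)) ?_).congr fun v => rfl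
  rintro (_ | i)
  · exact hj
  · fin_cases i
    · exact hl
    · exact ha

/-- the code of the word obtained from the code `acc` by adding the image of the letter `l` -/
def stepc (l k acc : ℕ) : ℕ :=
  if l.unpair.1 = 3 then push (Nat.pair 0 (1 - l.unpair.2)) acc k else
    Nat.succ (Nat.pair (Nat.pair l.unpair.1 (1 - l.unpair.2)) acc)

theorem BF.stepc {l k acc : (α → ℕ) → ℕ} (hl : BF l) (hk : BF k) (ha : BF acc) :
    BF fun v => stepc (l v) (k v) (acc v) := by
  have h1 : BF fun v => 1 - (l v).unpair.2 := (BF.const 1).sub hl.unpair2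
  exact BF.iteEq hl.unpair1 (BF.const 3) (BF.push ((BF.const 0).pair h1) ha hk)
    (((hl.unpair1.pair h1).pair ha).add (BF.const 1))

theorem stepc_bound {L l k acc : ℕ} (h : (l + 2) ^ 2 ≤ L) :
    stepc l k acc + L + 2 ≤ (acc + L + 2) ^ 2 ^ (k + 1) := by
  have hpair : ∀ x y : ℕ, x ≤ l → y ≤ 1 → Nat.pair x y ≤ L := by
    intro x y hx hy
    refine ((Nat.pair_lt_max_add_one_sq x y).le.trans (Nat.pow_le_pow_left ?_ 2)).trans h
    have := max_le (a := x) (b := y) (c := l + 1) (by omega) (by omega)
    omega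
  have hb : 1 ≤ acc + L + 2 := by omega
  unfold stepc
  split_ifs with h3
  · exact (push_bound (hpair _ _ (Nat.zero_le _) (Nat.sub_le _ _)) k).trans
      (Nat.pow_le_pow_right hb (Nat.pow_le_pow_right (by norm_num) (by omega)))
  · refine (cons_bound (hpair _ _ (Nat.unpair_left_le _) (Nat.sub_le _ _))).trans
      (Nat.pow_le_pow_right hb ?_)
    calc 2 = 2 ^ 1 := by norm_num
      _ ≤ 2 ^ (k + 1) := Nat.pow_le_pow_right (by norm_num) (by omega)

/-- the code of a word without its first `i` letters -/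
def suf (c : ℕ) : ℕ → ℕ
  | 0 => c
  | i + 1 => (suf c i - 1).unpair.2

theorem suf_le (c i : ℕ) : suf c i ≤ c := by
  induction i with
  | zero => exact le_rfl
  | succ i ih => exact ((Nat.unpair_right_le _).trans (Nat.sub_le _ _)).trans ih

theorem BF.suf {c i : (α → ℕ) → ℕ} (hc : BF c) (hi : BF i) : BF fun v => suf (c v) (i v) := by
  have h1 : BF fun w : Option (Fin 1) → ℕ =>
      (fun (j : ℕ) (v : Fin 1 → ℕ) => EL.suf (v 0) j) (w none) (fun i => w (some i)) := by
    refine BF.prec (φ := fun (j : ℕ) (v : Fin 1 → ℕ) => EL.suf (v 0) j)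
      (g := fun v => v 0) (h := fun _ x _ => (x - 1).unpair.2) (BF.proj 0) ?_
      (fun _ => rfl) (fun _ _ => rfl) (F := fun B => B) TB.id ?_
    · exact (BF.nn.sub (BF.const 1)).unpair2
    · intro z v B hz hv
      exact (suf_le _ _).trans (hv 0)
  refine (BF.subst (δ := Option (Fin 1)) h1
    (g := fun o v => o.elim (i v) (fun _ => c v)) ?_).congr fun v => rfl
  rintro (_ | _)
  · exact hi
  · exact hc

/-- the code of the inverse of the word after the substitution in the first `i` letters -/
def isubc (c k : ℕ) : ℕ → ℕ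
  | 0 => 0
  | i + 1 => if suf c i = 0 then isubc c k i else
      stepc (suf c i - 1).unpair.1 k (isubc c k i)

theorem isubc_bound (c k i : ℕ) :
    isubc c k i + (c + 2) ^ 2 + 2 ≤ ((c + 2) ^ 2 + 2) ^ 2 ^ ((k + 1) * i) := by
  induction i with
  | zero => simp [isubc]
  | succ i ih =>
    have hb : 1 ≤ (c + 2) ^ 2 + 2 := by omega
    unfold isubc
    split_ifs with h
    · exact ih.trans (Nat.pow_le_pow_right hb (Nat.pow_le_pow_right (by norm_num)
        (Nat.mul_le_mul_left _ (by omega))))
    · have h1 : ((suf c i - 1).unpair.1 + 2) ^ 2 ≤ (c + 2) ^ 2 := by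
        refine Nat.pow_le_pow_left ?_ 2
        have h2 := Nat.unpair_left_le (suf c i - 1)
        have h3 := suf_le c i
        omega
      refine (stepc_bound h1).trans ?_
      refine (Nat.pow_le_pow_left ih _).trans ?_
      rw [← pow_mul, ← pow_add]
      exact Nat.pow_le_pow_right hb (Nat.pow_le_pow_right (by norm_num) (by
        have : (k + 1) * (i + 1) = (k + 1) * i + (k + 1) := by ring
        omega))

theorem BF.isubc {c k i : (α → ℕ) → ℕ} (hc : BF c) (hk : BF k) (hi : BF i) :
    BF fun v => isubc (c v) (k v) (i v) := by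
  have h1 : BF fun w : Option (Fin 2) → ℕ =>
      (fun (j : ℕ) (v : Fin 2 → ℕ) => EL.isubc (v 0) (v 1) j) (w none) (fun i => w (some i)) := by
    refine BF.prec (φ := fun (j : ℕ) (v : Fin 2 → ℕ) => EL.isubc (v 0) (v 1) j)
      (g := fun _ => 0) (h := fun i x v => if EL.suf (v 0) i = 0 then x else
        EL.stepc (EL.suf (v 0) i - 1).unpair.1 (v 1) x) (BF.const 0) ?_
      (fun _ => rfl) (fun _ _ => rfl)
      (F := fun B => ((B + 2) ^ 2 + 2) ^ 2 ^ ((B + 1) * B))
      (((((TB.id.add (TB.const 2)).pow (TB.const 2))).add (TB.const 2)).pow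
        ((TB.id.add (TB.const 1)).mul TB.id).two_pow) ?_
    · have hs : BF fun w : Option (Option (Fin 2)) → ℕ =>
          EL.suf (w (some (some 0))) (w (some none)) := BF.suf (BF.proj _) (BF.proj _)
      exact BF.iteEq hs (BF.const 0) BF.nn
        (BF.stepc (hs.sub (BF.const 1)).unpair1 (BF.proj (some (some 1))) BF.nn)
    · intro z v B hz hv
      have h2 := isubc_bound (v 0) (v 1) z
      have h3 : ((v 0 + 2) ^ 2 + 2) ^ 2 ^ ((v 1 + 1) * z) ≤
          ((B + 2) ^ 2 + 2) ^ 2 ^ ((B + 1) * B) := by
        refine (Nat.pow_le_pow_left (Nat.add_le_add_right (Nat.pow_le_pow_left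
          (Nat.add_le_add_right (hv 0) 2) 2) 2) _).trans
          (Nat.pow_le_pow_right (by omega) (Nat.pow_le_pow_right (by norm_num) ?_))
        exact Nat.mul_le_mul (Nat.add_le_add_right (hv 1) 1) hz
      change EL.isubc (v 0) (v 1) z ≤ _
      omega
  refine (BF.subst (δ := Option (Fin 2)) h1
    (g := fun o v => o.elim (i v) (fun i => if i = 0 then c v else k v)) ?_).congr fun v => rfl
  rintro (_ | i)
  · exact hi
  · fin_cases i
    · exact hc
    · exact hk

/-! ### Words -/

/-- the inverse of the image of a letter -/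
def img (k : ℕ) (l : (Fin 3 ⊕ Fin 2) × Bool) : Word 1 :=
  match l.1 with
    | Sum.inl i => [(Sum.inl i, !l.2)]
    | Sum.inr j => if j = 0 then [(Sum.inr 0, !l.2)] else List.replicate k (Sum.inl 0, !l.2)

theorem encode_replicate (j : ℕ) (l : (Fin 3 ⊕ Fin 1) × Bool) (acc : Word 1) :
    Encodable.encode (List.replicate j l ++ acc) = push (Encodable.encode l)
      (Encodable.encode acc) j := by
  induction j with
  | zero => rfl
  | succ j ih =>
    rw [List.replicate_succ, List.cons_append, Encodable.encode_list_cons, ih]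
    rfl

theorem stepc_encode (k : ℕ) (l : (Fin 3 ⊕ Fin 2) × Bool) (acc : Word 1) :
    stepc (Encodable.encode l) k (Encodable.encode acc) = Encodable.encode (img k l ++ acc) := by
  obtain ⟨l, b⟩ := l
  rcases l with i | j
  · have h0 : Encodable.encode ((Sum.inl i, b) : (Fin 3 ⊕ Fin 2) × Bool) =
        Nat.pair (2 * (i : ℕ)) b.toNat := by
      fin_cases i <;> cases b <;> decide
    have h : Nat.unpair (Encodable.encode ((Sum.inl i, b) : (Fin 3 ⊕ Fin 2) × Bool)) =
        (2 * (i : ℕ), b.toNat) := by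
      rw [h0, Nat.unpair_pair]
    have h2 : Encodable.encode ((Sum.inl i, !b) : (Fin 3 ⊕ Fin 1) × Bool) =
        Nat.pair (2 * (i : ℕ)) (1 - b.toNat) := by
      fin_cases i <;> cases b <;> decide
    unfold stepc
    rw [h, if_neg (by change ¬ (2 * (i : ℕ) = 3); omega)]
    change _ = Encodable.encode ((Sum.inl i, !b) :: acc)
    rw [Encodable.encode_list_cons, h2]
  · fin_cases j
    · have h0 : Encodable.encode ((Sum.inr 0, b) : (Fin 3 ⊕ Fin 2) × Bool) =
          Nat.pair 1 b.toNat := by
        cases b <;> decide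
      have h : Nat.unpair (Encodable.encode ((Sum.inr 0, b) : (Fin 3 ⊕ Fin 2) × Bool)) =
          (1, b.toNat) := by
        rw [h0, Nat.unpair_pair]
      have h2 : Encodable.encode ((Sum.inr 0, !b) : (Fin 3 ⊕ Fin 1) × Bool) =
          Nat.pair 1 (1 - b.toNat) := by
        cases b <;> decide
      unfold stepc
      change (if (Nat.unpair (Encodable.encode ((Sum.inr 0, b) : (Fin 3 ⊕ Fin 2) × Bool))).1 = 3
        then _ else Nat.succ (Nat.pair (Nat.pair (Nat.unpair (Encodable.encode ((Sum.inr 0, b) :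
          (Fin 3 ⊕ Fin 2) × Bool))).1 (1 - (Nat.unpair (Encodable.encode ((Sum.inr 0, b) :
          (Fin 3 ⊕ Fin 2) × Bool))).2)) (Encodable.encode acc))) =
        Encodable.encode ((Sum.inr 0, !b) :: acc)
      rw [h, if_neg (by change ¬ (1 = 3); omega), Encodable.encode_list_cons, h2]
    · have h0 : Encodable.encode ((Sum.inr 1, b) : (Fin 3 ⊕ Fin 2) × Bool) =
          Nat.pair 3 b.toNat := by
        cases b <;> decide
      have h : Nat.unpair (Encodable.encode ((Sum.inr 1, b) : (Fin 3 ⊕ Fin 2) × Bool)) =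
          (3, b.toNat) := by
        rw [h0, Nat.unpair_pair]
      have h2 : Encodable.encode ((Sum.inl 0, !b) : (Fin 3 ⊕ Fin 1) × Bool) =
          Nat.pair 0 (1 - b.toNat) := by
        cases b <;> decide
      unfold stepc
      change (if (Nat.unpair (Encodable.encode ((Sum.inr 1, b) : (Fin 3 ⊕ Fin 2) × Bool))).1 = 3
        then push (Nat.pair 0 (1 - (Nat.unpair (Encodable.encode ((Sum.inr 1, b) :
          (Fin 3 ⊕ Fin 2) × Bool))).2)) _ _ else _) =
        Encodable.encode (List.replicate k ((Sum.inl 0, !b) : (Fin 3 ⊕ Fin 1) × Bool) ++ acc)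
      rw [h, if_pos rfl, encode_replicate, h2]

/-- the inverse of the word after the substitution -/
def isub (k : ℕ) (w : Word 2) : Word 1 := w.foldl (fun acc l => img k l ++ acc) []

theorem suf_encode (w : Word 2) (i : ℕ) :
    suf (Encodable.encode w) i = Encodable.encode (w.drop i) := by
  induction i with
  | zero => rfl
  | succ i ih =>
    unfold suf
    rw [ih]
    rcases Nat.lt_or_ge i w.length with h | h
    · rw [List.drop_eq_getElem_cons h, Encodable.encode_list_cons]
      simp
    · rw [List.drop_eq_nil_of_le h, List.drop_eq_nil_of_le (by omega)]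
      simp

theorem isubc_encode (w : Word 2) (k i : ℕ) :
    isubc (Encodable.encode w) k i = Encodable.encode (isub k (w.take i)) := by
  induction i with
  | zero => rfl
  | succ i ih =>
    unfold isubc
    rw [suf_encode]
    rcases Nat.lt_or_ge i w.length with h | h
    · rw [List.drop_eq_getElem_cons h, Encodable.encode_list_cons, if_neg (by omega)]
      rw [Nat.succ_sub_one, Nat.unpair_pair]
      rw [ih, stepc_encode, List.take_succ_eq_append_getElem h]
      unfold isub
      rw [List.foldl_append]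
      rfl
    · rw [List.drop_eq_nil_of_le h, if_pos (by simp), ih, List.take_of_length_le h,
        List.take_of_length_le (by omega)]

theorem isubc_self (w : Word 2) (k : ℕ) :
    isubc (Encodable.encode w) k (Encodable.encode w) = Encodable.encode (isub k w) := by
  rw [isubc_encode, List.take_of_length_le (Encodable.length_le_encode w)]

theorem value_append {r : ℕ} (g : Fin r → G) (u w : Word r) :
    value g (u ++ w) = value g u * value g w := by
  unfold value
  rw [← FreeGroup.mul_mk, map_mul]

theorem value_img (k : ℕ) (l : (Fin 3 ⊕ Fin 2) × Bool) (x : G) :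
    value ![x] (img k l) = (value ![x, OR.Eqs.a ^ k] [l])⁻¹ := by
  unfold value
  rw [FreeGroup.lift_mk, FreeGroup.lift_mk]
  obtain ⟨l, b⟩ := l
  rcases l with i | j
  · cases b <;> simp [img]
  · fin_cases j
    · cases b <;> simp [img]
    · cases b <;> simp [img, OR.Eqs.a]

theorem value_isub (k : ℕ) (w : Word 2) (x : G) :
    value ![x] (isub k w) = (value ![x, OR.Eqs.a ^ k] w)⁻¹ := by
  have key : ∀ (w : Word 2) (acc : Word 1),
      value ![x] (w.foldl (fun acc l => img k l ++ acc) acc) =
        (value ![x, OR.Eqs.a ^ k] w)⁻¹ * value ![x] acc := by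
    intro w
    induction w with
    | nil =>
      intro acc
      have : value ![x, OR.Eqs.a ^ k] ([] : Word 2) = 1 := by
        unfold value
        rw [FreeGroup.lift_mk]
        rfl
      rw [List.foldl_nil, this, inv_one, one_mul]
    | cons l w ih =>
      intro acc
      rw [List.foldl_cons, ih, value_append, value_img,
        show l :: w = [l] ++ w from rfl, value_append, mul_inv_rev, mul_assoc]
  have h := key w []
  have h1 : value ![x] ([] : Word 1) = 1 := by
    unfold value
    rw [FreeGroup.lift_mk]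
    rfl
  rw [h1, mul_one] at h
  exact h

end Pool.Agent.KS6_35.EL
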