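import Mathlib

/-! Kalmár's class of elementary functions. -/

set_option autoImplicit false

namespace Pool.Agent.KS6_35.EL

/-- The elementary functions of Kalmár: the smallest class of functions `ℕⁿ → ℕ` which contains the
constant zero, the successor function, the projections, addition and truncated subtraction and is
closed under composition, bounded sums and bounded products. -/
inductive Elementary : {n : ℕ} → ((Fin n → ℕ) → ℕ) → Prop
  | zero {n : ℕ} : Elementary (fun _ : Fin n → ℕ => 0)
  | succ : Elementary (fun v : Fin 1 → ℕ => v 0 + 1)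
  | proj {n : ℕ} (i : Fin n) : Elementary (fun v : Fin n → ℕ => v i)
  | add : Elementary (fun v : Fin 2 → ℕ => v 0 + v 1)
  | sub : Elementary (fun v : Fin 2 → ℕ => v 0 - v 1)
  | comp {m n : ℕ} {f : (Fin m → ℕ) → ℕ} {g : Fin m → (Fin n → ℕ) → ℕ} : Elementary f →
      (∀ i, Elementary (g i)) → Elementary (fun v : Fin n → ℕ => f (fun i => g i v))
  | sum {n : ℕ} {f : (Fin (n + 1) → ℕ) → ℕ} : Elementary f →
      Elementary (fun v : Fin (n + 1) → ℕ => ∑ z ∈ Finset.range (v 0), f (Fin.cons z (Fin.tail v)))
  | prod {n : ℕ} {f : (Fin (n + 1) → ℕ) → ℕ} : Elementary f →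
      Elementary (fun v : Fin (n + 1) → ℕ => ∏ z ∈ Finset.range (v 0), f (Fin.cons z (Fin.tail v)))

end Pool.Agent.KS6_35.EL
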