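import Pool.Agent.KS6_35.EL.Rec
import Pool.Agent.KS6_35.EL.Elem
import Pool.Agent.KS6_35.OR.Words

/-! Elementary functions have Diophantine graphs with bounded witnesses. -/

set_option autoImplicit false

namespace Pool.Agent.KS6_35.EL

theorem reindex_cons {n : ℕ} {f : (Fin (n + 1) → ℕ) → ℕ} (hf : BF f) :
    BF fun w : Option (Option (Fin n)) → ℕ =>
      f (Fin.cons (w (some none)) (fun i => w (some (some i)))) := by
  refine (hf.reindex (Fin.cons (some none) (fun i => some (some i)) :
    Fin (n + 1) → Option (Option (Fin n)))).congr fun w => ?_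
  congr 1
  funext i
  refine Fin.cases ?_ (fun j => ?_) i
  · rfl
  · rfl

theorem Elementary.bf {n : ℕ} {f : (Fin n → ℕ) → ℕ} (hf : Elementary f) : BF f := by
  induction hf with
  | zero => exact BF.const 0
  | succ => exact (BF.proj 0).add (BF.const 1)
  | proj i => exact BF.proj i
  | add => exact (BF.proj 0).add (BF.proj 1)
  | sub => exact (BF.proj 0).sub (BF.proj 1)
  | comp _ _ hf hg => exact BF.subst hf hg
  | @sum n f _ hf =>
    obtain ⟨F, hF, hF'⟩ := hf.2
    have h1 : BF fun w : Option (Fin n) → ℕ =>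
        (fun (k : ℕ) (u : Fin n → ℕ) => ∑ z ∈ Finset.range k, f (Fin.cons z u)) (w none)
          (fun i => w (some i)) := by
      refine BF.prec (φ := fun (k : ℕ) (u : Fin n → ℕ) => ∑ z ∈ Finset.range k, f (Fin.cons z u))
        (g := fun _ => 0) (h := fun z x u => x + f (Fin.cons z u)) (BF.const 0)
        (BF.nn.add (reindex_cons hf)) (fun v => by simp) (fun z v => Finset.sum_range_succ _ _)
        (F := fun B => B * F B) (TB.id.mul hF) ?_
      intro z v B hz hv
      calc ∑ y ∈ Finset.range z, f (Fin.cons y v) ≤ ∑ _y ∈ Finset.range z, F B := by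
            refine Finset.sum_le_sum fun y hy => hF' _ B fun i => ?_
            refine Fin.cases ?_ (fun j => ?_) i
            · exact (Finset.mem_range.1 hy).le.trans hz
            · exact hv j
        _ = z * F B := by simp
        _ ≤ B * F B := Nat.mul_le_mul_right _ hz
    exact h1.reindex (fun o : Option (Fin n) => o.elim 0 Fin.succ)
  | @prod n f _ hf =>
    obtain ⟨F, hF, hF'⟩ := hf.2
    have h1 : BF fun w : Option (Fin n) → ℕ =>
        (fun (k : ℕ) (u : Fin n → ℕ) => ∏ z ∈ Finset.range k, f (Fin.cons z u)) (w none)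
          (fun i => w (some i)) := by
      refine BF.prec (φ := fun (k : ℕ) (u : Fin n → ℕ) => ∏ z ∈ Finset.range k, f (Fin.cons z u))
        (g := fun _ => 1) (h := fun z x u => x * f (Fin.cons z u)) (BF.const 1)
        (BF.nn.mul (reindex_cons hf)) (fun v => by simp) (fun z v => Finset.prod_range_succ _ _)
        (F := fun B => (1 + F B) ^ B) (((TB.const 1).add hF).pow TB.id) ?_
      intro z v B hz hv
      calc ∏ y ∈ Finset.range z, f (Fin.cons y v) ≤ ∏ _y ∈ Finset.range z, (1 + F B) := by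
            refine Finset.prod_le_prod' fun y hy => (hF' _ B fun i => ?_).trans
              (Nat.le_add_left _ _)
            refine Fin.cases ?_ (fun j => ?_) i
            · exact (Finset.mem_range.1 hy).le.trans hz
            · exact hv j
        _ = (1 + F B) ^ z := by simp
        _ ≤ (1 + F B) ^ B := Nat.pow_le_pow_right (by omega) hz
    exact h1.reindex (fun o : Option (Fin n) => o.elim 0 Fin.succ)

open MvPolynomial

/-- a set of natural numbers with bounded Diophantine definition in standard form -/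
theorem BD.fin {S : ℕ → Prop} (d : BD {v : Fin 1 → ℕ | S (v 0)}) :
    ∃ (m : ℕ) (Q : MvPolynomial (Fin (m + 1)) ℤ) (e : ℕ),
      (∀ k (i : Fin (m + 1) → ℕ), i 0 = k → eval (fun l => ((i l : ℕ) : ℤ)) Q = 0 → S k) ∧
      ∀ k, S k → ∃ i : Fin (m + 1) → ℕ, i 0 = k ∧ ∑ l, i l < 2 ^ tw e k ∧
        eval (fun l => ((i l : ℕ) : ℤ)) Q = 0 := by
  classical
  obtain ⟨δ, _, p, h, h1, h2⟩ := d
  obtain ⟨Q, hQ⟩ := OR.exists_mvPoly p
  let e : δ ≃ Fin (Fintype.card δ) := Fintype.equivFin δ
  let g : Fin 1 ⊕ δ → Fin (Fintype.card δ + 1) := Sum.elim (fun _ => 0) (fun d => (e d).succ)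
  have hcomp : ∀ (i : Fin (Fintype.card δ + 1) → ℕ),
      eval (fun l => ((i l : ℕ) : ℤ)) (rename g Q) =
        p (Sum.elim (fun _ : Fin 1 => i 0) (fun d => i (e d).succ)) := by
    intro i
    rw [eval_rename, hQ]
    congr 2
    funext x
    rcases x with x | d
    · simp [g]
    · simp [g]
  obtain ⟨E, hE⟩ := TB.add TB.id ((TB.const (Fintype.card δ)).mul (TB.tw h))
  refine ⟨Fintype.card δ, rename g Q, E, fun k i hi hQ0 => ?_, fun k hk => ?_⟩
  · rw [hcomp] at hQ0
    have := h1 _ _ hQ0
    rw [← hi]; exact this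
  · obtain ⟨t, ht1, ht2⟩ := h2 (fun _ => k) hk k (fun _ => le_rfl)
    refine ⟨Fin.cons k fun l => t (e.symm l), rfl, ?_, ?_⟩
    · rw [Fin.sum_univ_succ]
      simp only [Fin.cons_zero, Fin.cons_succ]
      have h3 : ∑ l : Fin (Fintype.card δ), t (e.symm l) ≤ Fintype.card δ * tw h k := by
        calc ∑ l : Fin (Fintype.card δ), t (e.symm l) ≤ ∑ _l : Fin (Fintype.card δ), tw h k :=
              Finset.sum_le_sum fun l _ => ht1 _
          _ = _ := by simp
      have h4 : k + Fintype.card δ * tw h k ≤ tw E k := hE k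
      exact lt_of_le_of_lt (by omega : k + ∑ l : Fin (Fintype.card δ), t (e.symm l) ≤ tw E k)
        Nat.lt_two_pow_self
    · rw [hcomp, ← ht2]
      congr 1
      funext x
      rcases x with x | d
      · simp
      · simp

open OR OR.Eqs

/-- the word for `a ^ tw e k` if the last letter is `a ^ k` -/
def towerWord : ℕ → FreeGroup (Fin 3 ⊕ Fin 2)
  | 0 => FreeGroup.of (Sum.inr 1)
  | e + 1 => sc (FreeGroup.of (Sum.inl 1)) (FreeGroup.of (Sum.inl 0)) (towerWord e)

theorem lift_towerWord (x : G) (k e : ℕ) :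
    FreeGroup.lift (Sum.elim PresentedGroup.of ![x, a ^ k]) (towerWord e) = a ^ tw e k := by
  induction e with
  | zero => simp [towerWord, tw]
  | succ e ih =>
    unfold towerWord
    rw [map_sc, ih, FreeGroup.lift_apply_of, FreeGroup.lift_apply_of]
    change sc (PresentedGroup.of 1) a (a ^ tw e k) = a ^ 2 ^ tw e k
    have h := sc_nat rel_G (tw e k) 1
    rw [zpow_one, zpow_natCast, one_mul] at h
    rw [h, ← zpow_natCast]
    push_cast
    rfl

/-- substitute the word for `a ^ tw e k` -/
def theta (e : ℕ) : FreeGroup (Fin 3 ⊕ Fin 3) →* FreeGroup (Fin 3 ⊕ Fin 2) :=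
  FreeGroup.lift (Sum.elim (fun i => FreeGroup.of (Sum.inl i))
    ![FreeGroup.of (Sum.inr 0), towerWord e, FreeGroup.of (Sum.inr 1)])

theorem value_theta (e : ℕ) (w : Word 3) (x : G) (k : ℕ) :
    value ![x, a ^ k] (theta e (FreeGroup.mk w)).toWord = value ![x, a ^ tw e k, a ^ k] w := by
  unfold value
  rw [FreeGroup.mk_toWord]
  have h : (FreeGroup.lift (Sum.elim PresentedGroup.of ![x, a ^ k])).comp (theta e) =
      FreeGroup.lift (Sum.elim PresentedGroup.of ![x, a ^ tw e k, a ^ k]) := by
    refine FreeGroup.ext_hom _ _ fun l => ?_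
    rw [MonoidHom.comp_apply, theta, FreeGroup.lift_apply_of, FreeGroup.lift_apply_of]
    rcases l with i | j
    · simp
    · fin_cases j
      · simp
      · simpa using lift_towerWord x k e
      · simp
  exact congrArg (fun f : FreeGroup (Fin 3 ⊕ Fin 3) →* G => f (FreeGroup.mk w)) h

/-- sets with bounded Diophantine definition are given by equations in one variable -/
theorem BD.oneVar {S : ℕ → Prop} (d : BD {v : Fin 1 → ℕ | S (v 0)}) :
    ∃ w : Word 2, ∀ k : ℕ, S k ↔ ∃ x : G, value ![x, a ^ k] w = 1 := by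
  obtain ⟨m, Q, e, h1, h2⟩ := BD.fin d
  obtain ⟨w, hw⟩ := key m Q
  refine ⟨(theta e (FreeGroup.mk w)).toWord, fun k => ?_⟩
  simp only [value_theta]
  rw [(hw k).1]
  constructor
  · exact h2 k
  · rintro ⟨i, hi, -, hQ⟩
    exact h1 k i hi hQ

end Pool.Agent.KS6_35.EL
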