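import Pool.Agent.KS6_35.EL.BD

/-! The power function: witnesses of the Diophantine definition are bounded. -/

set_option autoImplicit false

namespace Pool.Agent.KS6_35.EL

open Pell

theorem xn_succ_le {a : ℕ} (a1 : 1 < a) (n : ℕ) : xn a1 (n + 1) ≤ 2 * a * xn a1 n := by
  cases n with
  | zero => rw [xn_one, xn_zero]; omega
  | succ n =>
    have h : xn a1 (n + 1 + 1) + xn a1 n = 2 * a * xn a1 (n + 1) := xn_succ_succ a1 n
    omega

theorem xn_le {a : ℕ} (a1 : 1 < a) (n : ℕ) : xn a1 n ≤ (2 * a) ^ n := by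
  induction n with
  | zero => rw [xn_zero, pow_zero]
  | succ n ih =>
    rw [pow_succ, mul_comm]
    exact (xn_succ_le a1 n).trans (Nat.mul_le_mul_left _ ih)

theorem yn_le {a : ℕ} (a1 : 1 < a) (n : ℕ) : yn a1 n ≤ (2 * a) ^ n := by
  have key : ∀ n, yn a1 (n + 1) ≤ (2 * a) ^ n := by
    intro n
    induction n with
    | zero => rw [Nat.zero_add, yn_one, pow_zero]
    | succ n ih =>
      have h : yn a1 (n + 1 + 1) + yn a1 n = 2 * a * yn a1 (n + 1) := yn_succ_succ a1 n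
      rw [pow_succ, mul_comm]
      exact le_trans (by omega) (Nat.mul_le_mul_left (2 * a) ih)
  cases n with
  | zero => rw [yn_zero]; exact Nat.zero_le _
  | succ n => exact (key n).trans (Nat.pow_le_pow_right (by omega) (by omega))

/-- the bound for the witnesses of the Pell relation -/
def U1 (B : ℕ) : ℕ := (2 * B) ^ (2 * (B * B))
def U2 (B : ℕ) : ℕ := U1 B * (4 * B)
def U3 (B : ℕ) : ℕ := U1 B + U2 B + (2 * U2 B) ^ B

theorem TB_U1 : TB U1 :=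
  ((TB.const 2).mul TB.id).pow ((TB.const 2).mul (TB.id.mul TB.id))
theorem TB_U2 : TB U2 := TB_U1.mul ((TB.const 4).mul TB.id)
theorem TB_U3 : TB U3 := (TB_U1.add TB_U2).add (((TB.const 2).mul TB_U2).pow TB.id)

theorem mati_bound {a k : ℕ} (a1 : 1 < a) (kpos : 0 < k) {B : ℕ} (ha : a ≤ B) (hk : k ≤ B)
    (hy : yn a1 k ≤ B) : ∃ u v s t b : ℕ, (u ≤ U3 B ∧ v ≤ U3 B ∧ s ≤ U3 B ∧ t ≤ U3 B ∧ b ≤ U3 B) ∧
      u * u - (a * a - 1) * v * v = 1 ∧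
      s * s - (b * b - 1) * t * t = 1 ∧ 1 < b ∧ b ≡ 1 [MOD 4 * yn a1 k] ∧
      b ≡ a [MOD u] ∧ 0 < v ∧ yn a1 k * yn a1 k ∣ v ∧ s ≡ xn a1 k [MOD u] ∧
      t ≡ k [MOD 4 * yn a1 k] := by
  let x := xn a1 k
  let y := yn a1 k
  let m := 2 * (k * y)
  let u := xn a1 m
  let v := yn a1 m
  have ky : k ≤ y := yn_ge_n a1 k
  have yv : y * y ∣ v := (ysq_dvd_yy a1 k).trans <| (y_dvd_iff _ _ _).2 <| dvd_mul_left _ _
  have uco : Nat.Coprime u (4 * y) :=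
    have : 2 ∣ v :=
      Nat.modEq_zero_iff_dvd.1 <| (yn_modEq_two _ _).trans (dvd_mul_right _ _).modEq_zero_nat
    have : Nat.Coprime u 2 := (xy_coprime a1 m).coprime_dvd_right this
    (this.mul_right this).mul_right <|
      (xy_coprime _ _).coprime_dvd_right (dvd_of_mul_left_dvd yv)
  have upos : 0 < u := x_pos a1 m
  have ypos : 0 < y := lt_of_lt_of_le kpos ky
  obtain ⟨b, hb⟩ : ∃ b : ℕ, b = (Nat.chineseRemainder uco a 1 : ℕ) := ⟨_, rfl⟩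
  have ba : b ≡ a [MOD u] := hb ▸ (Nat.chineseRemainder uco a 1).2.1
  have bm1 : b ≡ 1 [MOD 4 * y] := hb ▸ (Nat.chineseRemainder uco a 1).2.2
  have blt : b < u * (4 * y) := by
    rw [hb]
    exact Nat.chineseRemainder_lt_mul uco a 1 (by omega) (by omega)
  have m1 : 1 < m :=
    have : 0 < k * y := Nat.mul_pos kpos (strictMono_y a1 kpos)
    Nat.mul_le_mul_left 2 this
  have vp : 0 < v := strictMono_y a1 (lt_trans zero_lt_one m1)
  have b1 : 1 < b := by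
    have h1 : xn a1 1 < u := strictMono_x a1 m1
    have h2 : a < u := by simpa using h1
    refine lt_of_lt_of_le a1 ?_
    have h3 : b % u = a % u := ba
    rw [Nat.mod_eq_of_lt h2] at h3
    rw [← h3]
    apply Nat.mod_le
  let s := xn b1 k
  let t := yn b1 k
  have sx : s ≡ x [MOD u] := (xy_modEq_of_modEq b1 a1 ba k).left
  have tk : t ≡ k [MOD 4 * y] :=
    have : 4 * y ∣ b - 1 :=
      Int.natCast_dvd_natCast.1 <| by rw [Int.ofNat_sub (le_of_lt b1)]; exact bm1.symm.dvd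
    (yn_modEq_a_sub_one _ _).of_dvd this
  -- bounds
  have hB : 1 ≤ B := by omega
  have hm : m ≤ 2 * (B * B) := Nat.mul_le_mul_left 2 (Nat.mul_le_mul hk hy)
  have hpow : (2 * a) ^ m ≤ U1 B :=
    (Nat.pow_le_pow_left (by omega) m).trans (Nat.pow_le_pow_right (by omega) hm)
  have hu : u ≤ U1 B := (xn_le a1 m).trans hpow
  have hv : v ≤ U1 B := (yn_le a1 m).trans hpow
  have hbB : b ≤ U2 B := blt.le.trans (Nat.mul_le_mul hu (Nat.mul_le_mul_left 4 hy))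
  have hpow2 : (2 * b) ^ k ≤ (2 * U2 B) ^ B :=
    (Nat.pow_le_pow_left (by omega) k).trans (Nat.pow_le_pow_right (by omega) hk)
  have hs : s ≤ (2 * U2 B) ^ B := (xn_le b1 k).trans hpow2
  have ht : t ≤ (2 * U2 B) ^ B := (yn_le b1 k).trans hpow2
  refine ⟨u, v, s, t, b, ?_, pell_eq _ _, pell_eq _ _, b1, bm1, ba, vp, yv, sx, tk⟩
  unfold U3
  refine ⟨?_, ?_, ?_, ?_, ?_⟩ <;> omega

theorem BD.pell : BD {v : Fin 4 → ℕ | ∃ h : 1 < v 0, xn h (v 1) = v 2 ∧ yn h (v 1) = v 3} := by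
  have h1 : BD {v : Fin 4 → ℕ | ∃ q : Fin 5 → ℕ, (1 < v 0 ∧ 0 < v 1 ∧ v 1 ≤ v 3 ∧
      v 2 * v 2 - (v 0 * v 0 - 1) * v 3 * v 3 = 1 ∧ q 0 * q 0 - (v 0 * v 0 - 1) * q 1 * q 1 = 1 ∧
      q 2 * q 2 - (q 4 * q 4 - 1) * q 3 * q 3 = 1 ∧ 1 < q 4 ∧ q 4 ≡ 1 [MOD 4 * v 3] ∧
      q 4 ≡ v 0 [MOD q 0] ∧ 0 < q 1 ∧ v 3 * v 3 ∣ q 1 ∧ q 2 ≡ v 2 [MOD q 0] ∧
      q 3 ≡ v 1 [MOD 4 * v 3])} := by
    refine BD.exfun (S := fun q v => (1 < v 0 ∧ 0 < v 1 ∧ v 1 ≤ v 3 ∧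
      v 2 * v 2 - (v 0 * v 0 - 1) * v 3 * v 3 = 1 ∧ q 0 * q 0 - (v 0 * v 0 - 1) * q 1 * q 1 = 1 ∧
      q 2 * q 2 - (q 4 * q 4 - 1) * q 3 * q 3 = 1 ∧ 1 < q 4 ∧ q 4 ≡ 1 [MOD 4 * v 3] ∧
      q 4 ≡ v 0 [MOD q 0] ∧ 0 < q 1 ∧ v 3 * v 3 ∣ q 1 ∧ q 2 ≡ v 2 [MOD q 0] ∧
      q 3 ≡ v 1 [MOD 4 * v 3])) ?_ TB_U3 ?_
    · have v0 : BF fun w : Fin 4 ⊕ Fin 5 → ℕ => w (Sum.inl 0) := BF.proj _
      have v1 : BF fun w : Fin 4 ⊕ Fin 5 → ℕ => w (Sum.inl 1) := BF.proj _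
      have v2 : BF fun w : Fin 4 ⊕ Fin 5 → ℕ => w (Sum.inl 2) := BF.proj _
      have v3 : BF fun w : Fin 4 ⊕ Fin 5 → ℕ => w (Sum.inl 3) := BF.proj _
      have q0 : BF fun w : Fin 4 ⊕ Fin 5 → ℕ => w (Sum.inr 0) := BF.proj _
      have q1 : BF fun w : Fin 4 ⊕ Fin 5 → ℕ => w (Sum.inr 1) := BF.proj _
      have q2 : BF fun w : Fin 4 ⊕ Fin 5 → ℕ => w (Sum.inr 2) := BF.proj _
      have q3 : BF fun w : Fin 4 ⊕ Fin 5 → ℕ => w (Sum.inr 3) := BF.proj _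
      have q4 : BF fun w : Fin 4 ⊕ Fin 5 → ℕ => w (Sum.inr 4) := BF.proj _
      have c (n : ℕ) : BF fun _ : Fin 4 ⊕ Fin 5 → ℕ => n := BF.const n
      exact (BD.lt (c 1) v0).and <| (BD.lt (c 0) v1).and <| (BD.le v1 v3).and <|
        (BD.eq ((v2.mul v2).sub ((((v0.mul v0).sub (c 1)).mul v3).mul v3)) (c 1)).and <|
        (BD.eq ((q0.mul q0).sub ((((v0.mul v0).sub (c 1)).mul q1).mul q1)) (c 1)).and <|
        (BD.eq ((q2.mul q2).sub ((((q4.mul q4).sub (c 1)).mul q3).mul q3)) (c 1)).and <|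
        (BD.lt (c 1) q4).and <| (BD.modEq q4 (c 1) ((c 4).mul v3)).and <|
        (BD.modEq q4 v0 q0).and <| (BD.lt (c 0) q1).and <| (BD.dvd (v3.mul v3) q1).and <|
        (BD.modEq q2 v2 q0).and (BD.modEq q3 v1 ((c 4).mul v3))
    · rintro v B hB ⟨q, h1, h2, h3, h4, h5, h6, h7, h8, h9, h10, h11, h12, h13⟩
      obtain ⟨a1, hx, hy⟩ := matiyasevic.2 ⟨h1, h3, Or.inr ⟨q 0, q 1, q 2, q 3, q 4, h4, h5, h6, h7,
        h8, h9, h10, h11, h12, h13⟩⟩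
      obtain ⟨u, w, s, t, b, ⟨b1, b2, b3, b4, b5⟩, k1, k2, k3, k4, k5, k6, k7, k8, k9⟩ :=
        mati_bound a1 h2 (hB 0) (hB 1) (by rw [hy]; exact hB 3)
      rw [hy] at k4 k7 k9
      rw [hx] at k8
      refine ⟨![u, w, s, t, b], ?_, h1, h2, h3, h4, k1, k2, k3, k4, k5, k6, k7, k8, k9⟩
      intro i
      fin_cases i
      · exact b1
      · exact b2
      · exact b3
      · exact b4
      · exact b5
  have h2 : BD {v : Fin 4 → ℕ | 1 < v 0 ∧ v 1 = 0 ∧ v 2 = 1 ∧ v 3 = 0} :=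
    (BD.lt (BF.const 1) (BF.proj 0)).and <| (BD.eq (BF.proj 1) (BF.const 0)).and <|
      (BD.eq (BF.proj 2) (BF.const 1)).and (BD.eq (BF.proj 3) (BF.const 0))
  refine (h2.or h1).ext fun v => ?_
  simp only [Set.mem_ofPred_eq]
  constructor
  · rintro (⟨e1, e2, e3, e4⟩ | ⟨q, h1, h2, h3, h4, h5, h6, h7, h8, h9, h10, h11, h12, h13⟩)
    · exact ⟨e1, by rw [e2, e3, xn_zero], by rw [e2, e4, yn_zero]⟩
    · exact matiyasevic.2 ⟨h1, h3, Or.inr ⟨q 0, q 1, q 2, q 3, q 4, h4, h5, h6, h7,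
        h8, h9, h10, h11, h12, h13⟩⟩
  · rintro ⟨a1, hx, hy⟩
    rcases Nat.eq_zero_or_pos (v 1) with h0 | hpos
    · left
      rw [h0, xn_zero] at hx
      rw [h0, yn_zero] at hy
      exact ⟨a1, h0, hx.symm, hy.symm⟩
    · right
      obtain ⟨u, w, s, t, b, -, k1, k2, k3, k4, k5, k6, k7, k8, k9⟩ :=
        mati_bound a1 hpos (B := v 0 + v 1 + v 3) (by omega) (by omega) (by rw [hy]; omega)
      rw [hy] at k4 k7 k9
      rw [hx] at k8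
      refine ⟨![u, w, s, t, b], a1, hpos, ?_, ?_, k1, k2, k3, k4, k5, k6, k7, k8, k9⟩
      · rw [← hy]; exact yn_ge_n a1 _
      · rw [← hx, ← hy]; exact pell_eq a1 _

/-- the bounds for the witnesses of the power relation -/
def A1 (B : ℕ) : ℕ := (2 * (B + 1)) ^ B
def A2 (B : ℕ) : ℕ := B + A1 B + 2 * A1 B * B + (2 * A1 B) ^ B

theorem TB_A1 : TB A1 := ((TB.const 2).mul (TB.id.add (TB.const 1))).pow TB.id
theorem TB_A2 : TB A2 :=
  ((TB.id.add TB_A1).add (((TB.const 2).mul TB_A1).mul TB.id)).add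
    (((TB.const 2).mul TB_A1).pow TB.id)

theorem pow_bound {n k : ℕ} (hn : 0 < n) (hk : 0 < k) {B : ℕ} (hnB : n ≤ B) (hkB : k ≤ B) :
    ∃ (w a t z : ℕ) (a1 : 1 < a), (w ≤ A2 B ∧ a ≤ A2 B ∧ t ≤ A2 B ∧ z ≤ A2 B ∧
      xn a1 k ≤ A2 B ∧ yn a1 k ≤ A2 B) ∧ xn a1 k ≡ yn a1 k * (a - n) + n ^ k [MOD t] ∧
      2 * a * n = t + (n * n + 1) ∧ n ^ k < t ∧
      n ≤ w ∧ k ≤ w ∧ a * a - ((w + 1) * (w + 1) - 1) * (w * z) * (w * z) = 1 := by
  obtain ⟨w, hw⟩ : ∃ w, w = max n k := ⟨_, rfl⟩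
  have nw : n ≤ w := hw ▸ le_max_left _ _
  have kw : k ≤ w := hw ▸ le_max_right _ _
  have wB : w ≤ B := hw ▸ max_le hnB hkB
  have wpos : 0 < w := hn.trans_le nw
  have w1 : 1 < w + 1 := Nat.succ_lt_succ wpos
  obtain ⟨a, ha⟩ : ∃ a, a = xn w1 w := ⟨_, rfl⟩
  have a1 : 1 < a := ha ▸ strictMono_x w1 wpos
  have na : n ≤ a := nw.trans (ha ▸ (n_lt_xn w1 w).le)
  obtain ⟨z, ze⟩ : w ∣ yn w1 w :=
    Nat.modEq_zero_iff_dvd.1 ((yn_modEq_a_sub_one w1 w).trans dvd_rfl.modEq_zero_nat)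
  have nt : (↑(n ^ k) : ℤ) < 2 * a * n - n * n - 1 := by
    refine eq_pow_of_pell_lem hn.ne' hk.ne' ?_
    calc
      n ^ k ≤ n ^ w := Nat.pow_le_pow_right hn kw
      _ < (w + 1) ^ w := Nat.pow_lt_pow_left (Nat.lt_succ_of_le nw) wpos.ne'
      _ ≤ a := ha ▸ xn_ge_a_pow w1 w
  obtain ⟨t, te⟩ : ∃ t : ℕ, (t : ℤ) = 2 * a * n - n * n - 1 :=
    ⟨_, Int.toNat_of_nonneg ((Nat.cast_nonneg _).trans nt.le)⟩
  have tm : xn a1 k ≡ yn a1 k * (a - n) + n ^ k [MOD t] := by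
    apply Nat.modEq_of_dvd
    rw [Int.natCast_add, Int.natCast_mul, Int.ofNat_sub na, te]
    exact x_sub_y_dvd_pow a1 n k
  have ta : 2 * a * n = t + (n * n + 1) := by
    zify
    linarith
  have zp : a * a - ((w + 1) * (w + 1) - 1) * (w * z) * (w * z) = 1 := by
    rw [ha, ← ze]; exact pell_eq w1 w
  -- bounds
  have hpow : (2 * (w + 1)) ^ w ≤ A1 B :=
    (Nat.pow_le_pow_left (by omega) w).trans (Nat.pow_le_pow_right (by omega) wB)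
  have haB : a ≤ A1 B := by rw [ha]; exact (xn_le w1 w).trans hpow
  have hzB : z ≤ A1 B := by
    refine le_trans ?_ ((yn_le w1 w).trans hpow)
    rw [ze]
    exact Nat.le_mul_of_pos_left z wpos
  have htB : t ≤ 2 * A1 B * B := by
    have : 2 * a * n ≤ 2 * A1 B * B := Nat.mul_le_mul (Nat.mul_le_mul_left 2 haB) hnB
    omega
  have hpow2 : (2 * a) ^ k ≤ (2 * A1 B) ^ B :=
    (Nat.pow_le_pow_left (by omega) k).trans (Nat.pow_le_pow_right (by omega) hkB)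
  have hx := (xn_le a1 k).trans hpow2
  have hy := (yn_le a1 k).trans hpow2
  refine ⟨w, a, t, z, a1, ?_, tm, ta, by rw [← te] at nt; exact Nat.cast_lt.1 nt, nw, kw, zp⟩
  unfold A2
  refine ⟨?_, ?_, ?_, ?_, ?_, ?_⟩ <;> omega

theorem BF.pow0 : BF fun v : Fin 2 → ℕ => v 0 ^ v 1 := by
  refine ⟨?_, fun B => 1 + B ^ B, (TB.const 1).add (TB.id.pow TB.id), fun v B hB => ?_⟩
  swap
  · rcases Nat.eq_zero_or_pos B with hB0 | hB0
    · have h0 := hB 0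
      have h1 := hB 1
      have e0 : v 0 = 0 := by omega
      have e1 : v 1 = 0 := by omega
      change v 0 ^ v 1 ≤ 1 + B ^ B
      rw [e0, e1, pow_zero]
      omega
    · have h := (Nat.pow_le_pow_left (hB 0) (v 1)).trans (Nat.pow_le_pow_right hB0 (hB 1))
      exact h.trans (Nat.le_add_left _ _)
  have v0 : BF fun w : Option (Fin 2) → ℕ => w (some 0) := BF.proj _
  have v1 : BF fun w : Option (Fin 2) → ℕ => w (some 1) := BF.proj _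
  have h1 : BD {w : Option (Fin 2) → ℕ | ∃ q : Fin 6 → ℕ, (0 < w (some 1) ∧ 0 < w (some 0) ∧
      (∃ a1 : 1 < q 1, xn a1 (w (some 1)) = q 4 ∧ yn a1 (w (some 1)) = q 5) ∧
      q 4 ≡ q 5 * (q 1 - w (some 0)) + w none [MOD q 2] ∧
      2 * q 1 * w (some 0) = q 2 + (w (some 0) * w (some 0) + 1) ∧ w none < q 2 ∧
      w (some 0) ≤ q 0 ∧ w (some 1) ≤ q 0 ∧
      q 1 * q 1 - ((q 0 + 1) * (q 0 + 1) - 1) * (q 0 * q 3) * (q 0 * q 3) = 1)} := by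
    refine BD.exfun (S := fun q w => (0 < w (some 1) ∧ 0 < w (some 0) ∧
      (∃ a1 : 1 < q 1, xn a1 (w (some 1)) = q 4 ∧ yn a1 (w (some 1)) = q 5) ∧
      q 4 ≡ q 5 * (q 1 - w (some 0)) + w none [MOD q 2] ∧
      2 * q 1 * w (some 0) = q 2 + (w (some 0) * w (some 0) + 1) ∧ w none < q 2 ∧
      w (some 0) ≤ q 0 ∧ w (some 1) ≤ q 0 ∧
      q 1 * q 1 - ((q 0 + 1) * (q 0 + 1) - 1) * (q 0 * q 3) * (q 0 * q 3) = 1)) ?_ TB_A2 ?_
    · have vv : BF fun w : Option (Fin 2) ⊕ Fin 6 → ℕ => w (Sum.inl none) := BF.proj _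
      have v0 : BF fun w : Option (Fin 2) ⊕ Fin 6 → ℕ => w (Sum.inl (some 0)) := BF.proj _
      have v1 : BF fun w : Option (Fin 2) ⊕ Fin 6 → ℕ => w (Sum.inl (some 1)) := BF.proj _
      have q0 : BF fun w : Option (Fin 2) ⊕ Fin 6 → ℕ => w (Sum.inr 0) := BF.proj _
      have q1 : BF fun w : Option (Fin 2) ⊕ Fin 6 → ℕ => w (Sum.inr 1) := BF.proj _
      have q2 : BF fun w : Option (Fin 2) ⊕ Fin 6 → ℕ => w (Sum.inr 2) := BF.proj _
      have q3 : BF fun w : Option (Fin 2) ⊕ Fin 6 → ℕ => w (Sum.inr 3) := BF.proj _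
      have q4 : BF fun w : Option (Fin 2) ⊕ Fin 6 → ℕ => w (Sum.inr 4) := BF.proj _
      have q5 : BF fun w : Option (Fin 2) ⊕ Fin 6 → ℕ => w (Sum.inr 5) := BF.proj _
      have c (n : ℕ) : BF fun _ : Option (Fin 2) ⊕ Fin 6 → ℕ => n := BF.const n
      have hpell : BD {w : Option (Fin 2) ⊕ Fin 6 → ℕ | ∃ a1 : 1 < w (Sum.inr 1),
          xn a1 (w (Sum.inl (some 1))) = w (Sum.inr 4) ∧
          yn a1 (w (Sum.inl (some 1))) = w (Sum.inr 5)} :=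
        (BD.pell.reindex ![Sum.inr 1, Sum.inl (some 1), Sum.inr 4, Sum.inr 5]).ext
          fun w => Iff.rfl
      exact (BD.lt (c 0) v1).and <| (BD.lt (c 0) v0).and <| hpell.and <|
        (BD.modEq q4 ((q5.mul (q1.sub v0)).add vv) q2).and <|
        (BD.eq (((c 2).mul q1).mul v0) (q2.add ((v0.mul v0).add (c 1)))).and <|
        (BD.lt vv q2).and <| (BD.le v0 q0).and <| (BD.le v1 q0).and <|
        BD.eq ((q1.mul q1).sub (((((q0.add (c 1)).mul (q0.add (c 1))).sub (c 1)).mul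
          (q0.mul q3)).mul (q0.mul q3))) (c 1)
    · rintro v B hB ⟨q, h1, h2, ⟨a1, h3, h3'⟩, h4, h5, h6, h7, h8, h9⟩
      have hv : v (some 0) ^ v (some 1) = v none := by
        refine eq_pow_of_pell.2 (Or.inr ⟨h1, Or.inr ⟨h2, q 0, q 1, q 2, q 3, a1, ?_, h5, h6, h7, h8,
          h9⟩⟩)
        rw [h3, h3']
        exact h4
      obtain ⟨w, a, t, z, a1', ⟨b1, b2, b3, b4, b5, b6⟩, k1, k2, k3, k4, k5, k6⟩ :=
        pow_bound h2 h1 (hB (some 0)) (hB (some 1))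
      rw [hv] at k1 k3
      refine ⟨![w, a, t, z, xn a1' (v (some 1)), yn a1' (v (some 1))], ?_, h1, h2,
        ⟨a1', rfl, rfl⟩, k1, k2, k3, k4, k5, k6⟩
      intro i
      fin_cases i
      · exact b1
      · exact b2
      · exact b3
      · exact b4
      · exact b5
      · exact b6
  have h2 : BD {w : Option (Fin 2) → ℕ | w (some 1) = 0 ∧ w none = 1} :=
    (BD.eq v1 (BF.const 0)).and (BD.eq BF.nn (BF.const 1))
  have h3 : BD {w : Option (Fin 2) → ℕ | 0 < w (some 1) ∧ w (some 0) = 0 ∧ w none = 0} :=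
    (BD.lt (BF.const 0) v1).and <| (BD.eq v0 (BF.const 0)).and (BD.eq BF.nn (BF.const 0))
  refine ((h2.or h3).or h1).ext fun v => ?_
  simp only [Set.mem_ofPred_eq, Function.comp]
  constructor
  · rintro ((⟨e1, e2⟩ | ⟨e1, e2, e3⟩) | ⟨q, h1, h2, ⟨a1, h3, h3'⟩, h4, h5, h6, h7, h8, h9⟩)
    · rw [e1, e2, pow_zero]
    · rw [e2, e3, zero_pow (by omega)]
    · refine eq_pow_of_pell.2 (Or.inr ⟨h1, Or.inr ⟨h2, q 0, q 1, q 2, q 3, a1, ?_, h5, h6, h7, h8,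
          h9⟩⟩)
      rw [h3, h3']
      exact h4
  · intro hv
    rcases Nat.eq_zero_or_pos (v (some 1)) with h0 | hpos
    · left; left
      rw [h0, pow_zero] at hv
      exact ⟨h0, hv.symm⟩
    · rcases Nat.eq_zero_or_pos (v (some 0)) with h0' | hpos'
      · left; right
        rw [h0', zero_pow (by omega)] at hv
        exact ⟨hpos, h0', hv.symm⟩
      · right
        obtain ⟨w, a, t, z, a1', -, k1, k2, k3, k4, k5, k6⟩ :=
          pow_bound hpos' hpos (B := v (some 0) + v (some 1)) (by omega) (by omega)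
        rw [hv] at k1 k3
        exact ⟨![w, a, t, z, xn a1' (v (some 1)), yn a1' (v (some 1))], hpos, hpos',
          ⟨a1', rfl, rfl⟩, k1, k2, k3, k4, k5, k6⟩

theorem BF.pow {α : Type} {f g : (α → ℕ) → ℕ} (hf : BF f) (hg : BF g) : BF fun v => f v ^ g v :=
  BF.subst2 (R := fun x y => x ^ y) BF.pow0 hf hg

end Pool.Agent.KS6_35.EL
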