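import Pool.Agent.KS6_35.EL.Ball

/-! Primitive recursion with a bound. -/

set_option autoImplicit false

namespace Pool.Agent.KS6_35.EL

open Pool.Agent.Helper844.Dio

variable {α : Type}

theorem BF.prec {φ : ℕ → (α → ℕ) → ℕ} {g : (α → ℕ) → ℕ} {h : ℕ → ℕ → (α → ℕ) → ℕ}
    (hg : BF g) (hh : BF fun w : Option (Option α) → ℕ => h (w (some none)) (w none)
      (fun i => w (some (some i))))
    (h0 : ∀ v, φ 0 v = g v) (hs : ∀ z v, φ (z + 1) v = h z (φ z v) v)
    {F : ℕ → ℕ} (hF : TB F) (hb : ∀ z v B, z ≤ B → (∀ i, v i ≤ B) → φ z v ≤ F B) :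
    BF fun w : Option α → ℕ => φ (w none) (fun i => w (some i)) := by
  refine ⟨?_, F, hF, fun v B hB => hb _ _ B (hB none) fun i => hB (some i)⟩
  let C : (Fin 2 → ℕ) → (Option (Option α) → ℕ) → Prop := fun a w =>
    a 0 % (1 + (0 + 1) * a 1) = g (fun i => w (some (some i))) ∧
    (∀ k < w (some none), a 0 % (1 + (k + 1 + 1) * a 1) =
      h k (a 0 % (1 + (k + 1) * a 1)) (fun i => w (some (some i)))) ∧
    a 0 % (1 + (w (some none) + 1) * a 1) = w none
  have hC1 : ∀ a w, C a w → φ (w (some none)) (fun i => w (some (some i))) = w none := by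
    rintro a w ⟨c1, c2, c3⟩
    have key : ∀ k ≤ w (some none), a 0 % (1 + (k + 1) * a 1) =
        φ k (fun i => w (some (some i))) := by
      intro k
      induction k with
      | zero => intro _; rw [h0]; exact c1
      | succ k ih =>
        intro hk
        rw [hs, ← ih (by omega)]
        exact c2 k (by omega)
    rw [← key _ le_rfl]
    exact c3
  let Qb : ℕ → ℕ := fun B => B + 1 + F B
  let Mb : ℕ → ℕ := fun B => (1 + (B + 1) * (Qb B).factorial) ^ (B + 1)
  have hQb : TB Qb := (TB.id.add (TB.const 1)).add hF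
  have hMb : TB Mb := ((TB.const 1).add ((TB.id.add (TB.const 1)).mul hQb.factorial)).pow
    (TB.id.add (TB.const 1))
  have hC2 : ∀ w : Option (Option α) → ℕ, ∀ B, (∀ i, w i ≤ B) →
      φ (w (some none)) (fun i => w (some (some i))) = w none →
      ∃ a : Fin 2 → ℕ, (∀ i, a i ≤ Mb B + (Qb B).factorial) ∧ C a w := by
    intro w B hB hw
    have hz : w (some none) ≤ B := hB _
    obtain ⟨crt, -⟩ := mprod_dvd_and_crt (Qb B).factorial (w (some none) + 1)
      (coprime_moduli (by change _ ≤ _ + _ + _; omega))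
    obtain ⟨c, hc, hc'⟩ := crt (fun k => φ k (fun i => w (some (some i))))
    have hle : ∀ k ≤ w (some none), φ k (fun i => w (some (some i))) ≤ F B := fun k hk =>
      hb k _ B (by omega) (fun i => hB _)
    have hmod : ∀ k ≤ w (some none), c % (1 + (k + 1) * (Qb B).factorial) =
        φ k (fun i => w (some (some i))) := by
      intro k hk
      have h1 := hc' k (by omega)
      have h2 := hle k hk
      have h3 : Qb B ≤ (Qb B).factorial := Nat.self_le_factorial _
      have h4 : (Qb B).factorial ≤ (k + 1) * (Qb B).factorial := Nat.le_mul_of_pos_left _ (by omega)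
      have h5 : F B ≤ Qb B := Nat.le_add_left _ _
      have h6 : c % (1 + (k + 1) * (Qb B).factorial) =
        φ k (fun i => w (some (some i))) % (1 + (k + 1) * (Qb B).factorial) := h1
      rw [h6, Nat.mod_eq_of_lt (by omega)]
    have hM : Pool.Agent.Helper844.Dio.mprod (Qb B).factorial (w (some none) + 1) ≤ Mb B := by
      refine (mprod_le _ _).trans ?_
      have h4 : (w (some none) + 1) * (Qb B).factorial ≤ (B + 1) * (Qb B).factorial :=
        Nat.mul_le_mul_right _ (by omega)
      exact (Nat.pow_le_pow_left (by omega) _).trans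
        (Nat.pow_le_pow_right (by omega) (by omega))
    refine ⟨![c, (Qb B).factorial], ?_, ?_, ?_, ?_⟩
    · intro i
      fin_cases i
      · exact (hc.le.trans hM).trans (Nat.le_add_right _ _)
      · exact Nat.le_add_left _ _
    · exact (hmod 0 (by omega)).trans (h0 _)
    · intro k hk
      exact (hmod (k + 1) (by omega)).trans (by
        rw [hs]
        exact congrArg (fun x => h k x (fun i => w (some (some i)))) (hmod k (by omega)).symm)
    · exact (hmod _ le_rfl).trans hw
  have hC : BD {w : Option (Option α) → ℕ | ∃ a, C a w} := by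
    refine BD.exfun (S := C) ?_ (hMb.add hQb.factorial) ?_
    swap
    · rintro w B hB ⟨a, ha⟩
      exact hC2 w B hB (hC1 a w ha)
    let Γ : Type := Option (Option α) ⊕ Fin 2
    have dc : BF (fun x : Γ → ℕ => x (Sum.inr 0)) := BF.proj _
    have dd : BF (fun x : Γ → ℕ => x (Sum.inr 1)) := BF.proj _
    have dz : BF (fun x : Γ → ℕ => x (Sum.inl (some none))) := BF.proj _
    have dy : BF (fun x : Γ → ℕ => x (Sum.inl none)) := BF.proj _
    have d1 : BF (fun x : Γ → ℕ => x (Sum.inr 0) % (1 + (0 + 1) * x (Sum.inr 1))) :=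
      dc.mod ((BF.const 1).add (((BF.const 0).add (BF.const 1)).mul dd))
    have d3 : BF (fun x : Γ → ℕ => x (Sum.inr 0) %
        (1 + (x (Sum.inl (some none)) + 1) * x (Sum.inr 1))) :=
      dc.mod ((BF.const 1).add ((dz.add (BF.const 1)).mul dd))
    have dgg : BF (fun x : Γ → ℕ => g (fun i => x (Sum.inl (some (some i))))) :=
      hg.reindex (fun i : α => (Sum.inl (some (some i)) : Γ))
    have d2 : BD {x : Γ → ℕ | ∀ k < x (Sum.inl (some none)),
        x (Sum.inr 0) % (1 + (k + 1 + 1) * x (Sum.inr 1)) =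
          h k (x (Sum.inr 0) % (1 + (k + 1) * x (Sum.inr 1)))
            (fun i => x (Sum.inl (some (some i))))} := by
      refine BD.ball (S := fun k x => x (Sum.inr 0) % (1 + (k + 1 + 1) * x (Sum.inr 1)) =
          h k (x (Sum.inr 0) % (1 + (k + 1) * x (Sum.inr 1)))
            (fun i => x (Sum.inl (some (some i))))) dz ?_
      have ec : BF (fun x : Option Γ → ℕ => x (some (Sum.inr 0))) := BF.proj _
      have ed : BF (fun x : Option Γ → ℕ => x (some (Sum.inr 1))) := BF.proj _
      have ek : BF (fun x : Option Γ → ℕ => x none) := BF.proj _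
      have e1 : BF (fun x : Option Γ → ℕ => x (some (Sum.inr 0)) %
          (1 + (x none + 1 + 1) * x (some (Sum.inr 1)))) :=
        ec.mod ((BF.const 1).add (((ek.add (BF.const 1)).add (BF.const 1)).mul ed))
      have e2 : BF (fun x : Option Γ → ℕ => x (some (Sum.inr 0)) %
          (1 + (x none + 1) * x (some (Sum.inr 1)))) :=
        ec.mod ((BF.const 1).add ((ek.add (BF.const 1)).mul ed))
      have e3 : BF (fun x : Option Γ → ℕ => h (x none) (x (some (Sum.inr 0)) %
          (1 + (x none + 1) * x (some (Sum.inr 1))))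
            (fun i => x (some (Sum.inl (some (some i)))))) := by
        refine BF.comp1 (S := fun y (x : Option Γ → ℕ) => h (x none) y
          (fun i => x (some (Sum.inl (some (some i)))))) ?_ e2
        exact (hh.reindex (fun o : Option (Option α) => o.elim (none : Option (Option Γ))
          (fun o' => o'.elim (some none) (fun i => some (some (Sum.inl (some (some i))))))))
      exact BD.eq e1 e3
    exact ((BD.eq d1 dgg).and (d2.and (BD.eq d3 dy))).ext fun x => Iff.rfl
  refine (hC.ext' (fun w ⟨a, ha⟩ => hC1 a w ha) fun w B hB hw => ?_)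
  obtain ⟨a, -, ha⟩ := hC2 w B hB hw
  exact ⟨a, ha⟩

end Pool.Agent.KS6_35.EL
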