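import Mathlib

/-! Iterated exponentials and functions bounded by them. -/

set_option autoImplicit false

namespace Pool.Agent.KS6_35.EL

/-- iterated exponentials -/
def tw : ℕ → ℕ → ℕ
  | 0, x => x
  | h + 1, x => 2 ^ tw h x

theorem tw_mono (h : ℕ) {x y : ℕ} (hxy : x ≤ y) : tw h x ≤ tw h y := by
  induction h with
  | zero => exact hxy
  | succ h ih => exact Nat.pow_le_pow_right (by norm_num) ih

theorem tw_succ_le (h x : ℕ) : tw h x ≤ tw (h + 1) x := Nat.lt_two_pow_self.le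

theorem tw_mono_left {h h' : ℕ} (hh : h ≤ h') (x : ℕ) : tw h x ≤ tw h' x := by
  induction hh with
  | refl => exact le_rfl
  | step _ ih => exact ih.trans (tw_succ_le _ _)

theorem le_tw (h x : ℕ) : x ≤ tw h x := tw_mono_left (Nat.zero_le h) x

theorem self_le_tw (h x : ℕ) : h ≤ tw h x := by
  induction h with
  | zero => exact Nat.zero_le _
  | succ h ih => exact Nat.succ_le_of_lt (lt_of_le_of_lt ih Nat.lt_two_pow_self)

theorem tw_add (h h' x : ℕ) : tw (h + h') x = tw h (tw h' x) := by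
  induction h with
  | zero => rw [Nat.zero_add]; rfl
  | succ h ih =>
    rw [Nat.succ_add]
    change 2 ^ tw (h + h') x = 2 ^ tw h (tw h' x)
    rw [ih]

/-- bounded by an iterated exponential of fixed height -/
def TB (F : ℕ → ℕ) : Prop := ∃ h, ∀ B, F B ≤ tw h B

theorem TB.mono {F G : ℕ → ℕ} (hG : TB G) (hFG : ∀ B, F B ≤ G B) : TB F := by
  obtain ⟨h, hh⟩ := hG
  exact ⟨h, fun B => (hFG B).trans (hh B)⟩

theorem TB.const (c : ℕ) : TB fun _ => c := ⟨c, fun B => self_le_tw c B⟩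

theorem TB.id : TB fun B => B := ⟨0, fun _ => le_rfl⟩

theorem TB.tw (h : ℕ) : TB (tw h) := ⟨h, fun _ => le_rfl⟩

theorem TB.comp {F G : ℕ → ℕ} (hF : TB F) (hG : TB G) : TB fun B => F (G B) := by
  obtain ⟨h, hh⟩ := hF
  obtain ⟨k, hk⟩ := hG
  exact ⟨h + k, fun B => (hh _).trans (by rw [tw_add]; exact tw_mono h (hk B))⟩

theorem TB.two_pow {F : ℕ → ℕ} (hF : TB F) : TB fun B => 2 ^ F B := by
  obtain ⟨h, hh⟩ := hF
  exact ⟨h + 1, fun B => Nat.pow_le_pow_right (by norm_num) (hh B)⟩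

theorem TB.max {F G : ℕ → ℕ} (hF : TB F) (hG : TB G) : TB fun B => max (F B) (G B) := by
  obtain ⟨h, hh⟩ := hF
  obtain ⟨k, hk⟩ := hG
  exact ⟨h + k, fun B => max_le ((hh B).trans (tw_mono_left (by omega) B))
    ((hk B).trans (tw_mono_left (by omega) B))⟩

theorem TB.add {F G : ℕ → ℕ} (hF : TB F) (hG : TB G) : TB fun B => F B + G B := by
  have h := (hF.max hG).two_pow.two_pow
  refine h.mono fun B => ?_
  have h1 : F B ≤ Max.max (F B) (G B) := le_max_left _ _
  have h2 : G B ≤ Max.max (F B) (G B) := le_max_right _ _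
  generalize Max.max (F B) (G B) = M at h1 h2
  have h3 : M < 2 ^ M := Nat.lt_two_pow_self
  have h4 : (2 : ℕ) ^ (M + 1) ≤ 2 ^ 2 ^ M := Nat.pow_le_pow_right (by norm_num) (by omega)
  rw [pow_succ] at h4
  omega

theorem TB.mul {F G : ℕ → ℕ} (hF : TB F) (hG : TB G) : TB fun B => F B * G B := by
  refine (hF.add hG).two_pow.mono fun B => ?_
  rw [pow_add]
  exact Nat.mul_le_mul Nat.lt_two_pow_self.le Nat.lt_two_pow_self.le

theorem TB.pow {F G : ℕ → ℕ} (hF : TB F) (hG : TB G) : TB fun B => F B ^ G B := by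
  refine (hF.mul hG).two_pow.mono fun B => ?_
  rw [pow_mul]
  exact Nat.pow_le_pow_left Nat.lt_two_pow_self.le _

theorem TB.factorial {F : ℕ → ℕ} (hF : TB F) : TB fun B => (F B).factorial :=
  (hF.pow hF).mono fun B => Nat.factorial_le_pow (F B)

theorem TB.sum {ι : Type} (s : Finset ι) {F : ι → ℕ → ℕ} (hF : ∀ i, TB (F i)) :
    TB fun B => ∑ i ∈ s, F i B := by
  classical
  induction s using Finset.induction_on with
  | empty => simpa using TB.const 0
  | insert a s ha ih =>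
    refine ((hF a).add ih).mono fun B => ?_
    rw [Finset.sum_insert ha]

end Pool.Agent.KS6_35.EL
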